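import Pool.Agent.Lib.MP_004e29_lc.Defs

/-!
# The infimum in the Gromov-Hausdorff distance of compact sets is attained
-/

namespace Pool.Agent.Lib.MP_004e29_lc

open scoped ENNReal Topology
open Filter Metric

/-- Isometries of `ℝ ^ n` are affine. -/
theorem isometry_form {n : ℕ} {f : EuclideanSpace ℝ (Fin n) → EuclideanSpace ℝ (Fin n)}
    (hf : Isometry f) : ∃ (L : EuclideanSpace ℝ (Fin n) →ₗᵢ[ℝ] EuclideanSpace ℝ (Fin n))
      (t : EuclideanSpace ℝ (Fin n)), ∀ x, f x = L x + t := by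
  let F := hf.affineIsometryOfStrictConvexSpace
  refine ⟨F.linearIsometry, f 0, fun x => ?_⟩
  have h := F.map_vadd 0 x
  rw [vadd_eq_add, add_zero, vadd_eq_add] at h
  exact h

/-- Isometries of `ℝ ^ n` have inverses. -/
theorem isometry_inv {n : ℕ} {g : EuclideanSpace ℝ (Fin n) → EuclideanSpace ℝ (Fin n)}
    (hg : Isometry g) : ∃ h : EuclideanSpace ℝ (Fin n) → EuclideanSpace ℝ (Fin n),
      Isometry h ∧ (∀ x, g (h x) = x) ∧ ∀ x, h (g x) = x := by
  obtain ⟨L, t, hL⟩ := isometry_form hg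
  let L' := L.toLinearIsometryEquiv rfl
  refine ⟨fun x => L'.symm (x - t), ?_, fun x => ?_, fun x => ?_⟩
  · exact L'.symm.isometry.comp (IsometryEquiv.subRight t).isometry
  · rw [hL]
    have : L (L'.symm (x - t)) = x - t := by
      have := L'.apply_symm_apply (x - t)
      exact this
    rw [this]
    abel
  · simp only
    rw [hL, add_sub_cancel_right]
    exact L'.symm_apply_apply x

/-- For nonempty compact sets, the infimum is attained. -/
theorem exists_isometry {n : ℕ} {A B : Set (EuclideanSpace ℝ (Fin n))} (hA : IsCompact A)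
    (hB : IsCompact B) (hne : A.Nonempty) {d : ℝ} (hd : 0 ≤ d)
    (h : dGH A B ≤ ENNReal.ofReal d) :
    ∃ f : EuclideanSpace ℝ (Fin n) → EuclideanSpace ℝ (Fin n), Isometry f ∧
      (∀ a ∈ A, ∃ b ∈ B, dist (f a) b ≤ d) ∧ ∀ b ∈ B, ∃ a ∈ A, dist (f a) b ≤ d := by
  -- approximate solutions
  have key : ∀ k : ℕ, ∃ f : EuclideanSpace ℝ (Fin n) → EuclideanSpace ℝ (Fin n), Isometry f ∧
      (∀ a ∈ A, ∃ b ∈ B, dist (f a) b < d + 1 / (k + 1)) ∧
        ∀ b ∈ B, ∃ a ∈ A, dist (f a) b < d + 1 / (k + 1) := by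
    intro k
    have hk : (0 : ℝ) < 1 / ((k : ℝ) + 1) := by positivity
    have hlt : dGH A B < ENNReal.ofReal (d + 1 / (k + 1)) :=
      lt_of_le_of_lt h ((ENNReal.ofReal_lt_ofReal_iff (by linarith)).2 (by linarith))
    unfold dGH at hlt
    simp only [iInf_lt_iff] at hlt
    obtain ⟨f, hf, g, hg, hlt⟩ := hlt
    obtain ⟨g', hg', hgg', hg'g⟩ := isometry_inv hg
    refine ⟨fun x => g' (f x), hg'.comp hf, fun a ha => ?_, fun b hb => ?_⟩
    · obtain ⟨y, ⟨b, hb, rfl⟩, hy⟩ :=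
        exists_edist_lt_of_hausdorffEDist_lt (Set.mem_image_of_mem f ha) hlt
      refine ⟨b, hb, ?_⟩
      rw [← hg'g b, hg'.dist_eq]
      rw [edist_dist] at hy
      exact (ENNReal.ofReal_lt_ofReal_iff (by linarith)).1 hy
    · rw [hausdorffEDist_comm] at hlt
      obtain ⟨y, ⟨a, ha, rfl⟩, hy⟩ :=
        exists_edist_lt_of_hausdorffEDist_lt (Set.mem_image_of_mem g hb) hlt
      refine ⟨a, ha, ?_⟩
      rw [← hg'g b, hg'.dist_eq, dist_comm]
      rw [edist_dist] at hy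
      exact (ENNReal.ofReal_lt_ofReal_iff (by linarith)).1 hy
  choose f hf h1 h2 using key
  choose L t hL using fun k => isometry_form (hf k)
  -- bounds
  obtain ⟨a₀, ha₀⟩ := hne
  obtain ⟨M, hM⟩ := hB.isBounded.exists_norm_le
  have hk1 : ∀ k : ℕ, (1 : ℝ) / (k + 1) ≤ 1 := by
    intro k
    rw [div_le_one (by positivity)]
    linarith [(Nat.cast_nonneg k : (0 : ℝ) ≤ k)]
  have ht : ∀ k, ‖t k‖ ≤ M + d + 1 + ‖a₀‖ := by
    intro k
    obtain ⟨b, hb, hab⟩ := h1 k a₀ ha₀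
    have e1 : t k = f k a₀ - L k a₀ := by rw [hL]; abel
    have e2 : ‖f k a₀‖ ≤ ‖b‖ + dist (f k a₀) b := by
      rw [dist_eq_norm]
      calc ‖f k a₀‖ = ‖b + (f k a₀ - b)‖ := by congr 1; abel
        _ ≤ _ := norm_add_le _ _
    calc ‖t k‖ ≤ ‖f k a₀‖ + ‖L k a₀‖ := by rw [e1]; exact norm_sub_le _ _
      _ = ‖f k a₀‖ + ‖a₀‖ := by rw [(L k).norm_map]
      _ ≤ M + d + 1 + ‖a₀‖ := by linarith [hM b hb, hk1 k]
  have hLn : ∀ k, ‖(L k).toContinuousLinearMap‖ ≤ 1 := fun k => (L k).norm_toContinuousLinearMap_le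
  -- a convergent subsequence
  have hbd : ∀ k, ((L k).toContinuousLinearMap, t k) ∈
      closedBall (0 : (EuclideanSpace ℝ (Fin n) →L[ℝ] EuclideanSpace ℝ (Fin n)) ×
        EuclideanSpace ℝ (Fin n)) (max 1 (M + d + 1 + ‖a₀‖)) := by
    intro k
    rw [mem_closedBall_zero_iff, Prod.norm_def]
    exact max_le_max (hLn k) (ht k)
  obtain ⟨p, -, φ, hφ, hlim⟩ := tendsto_subseq_of_bounded isBounded_closedBall hbd
  have hlim1 : ∀ x, Tendsto (fun k => f (φ k) x) atTop (𝓝 (p.1 x + p.2)) := by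
    intro x
    have e1 := (continuous_fst.tendsto p).comp hlim
    have e2 := (continuous_snd.tendsto p).comp hlim
    have e3 : Tendsto (fun k => (L (φ k)).toContinuousLinearMap x) atTop (𝓝 (p.1 x)) :=
      ((ContinuousLinearMap.apply ℝ (EuclideanSpace ℝ (Fin n)) x).continuous.tendsto p.1).comp e1
    have e4 := e3.add e2
    refine e4.congr fun k => ?_
    rw [hL]
    rfl
  have hiso : Isometry fun x => p.1 x + p.2 := by
    refine Isometry.of_dist_eq fun x y => ?_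
    have e1 := (hlim1 x).dist (hlim1 y)
    refine tendsto_nhds_unique e1 ?_
    refine tendsto_const_nhds.congr fun k => ?_
    exact ((hf (φ k)).dist_eq x y).symm
  have hsmall : Tendsto (fun k : ℕ => d + 1 / ((φ k : ℕ) + 1 : ℝ)) atTop (𝓝 d) := by
    have e1 : Tendsto (fun k : ℕ => (1 : ℝ) / ((k : ℝ) + 1)) atTop (𝓝 0) :=
      tendsto_one_div_add_atTop_nhds_zero_nat
    have e2 := (e1.comp hφ.tendsto_atTop).const_add d
    simpa using e2
  refine ⟨fun x => p.1 x + p.2, hiso, fun a ha => ?_, fun b hb => ?_⟩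
  · choose b hb hab using fun k => h1 (φ k) a ha
    obtain ⟨b', hb', ψ, hψ, hbl⟩ := hB.tendsto_subseq hb
    refine ⟨b', hb', ?_⟩
    have e1 := ((hlim1 a).comp hψ.tendsto_atTop).dist hbl
    refine le_of_tendsto_of_tendsto e1 (hsmall.comp hψ.tendsto_atTop) ?_
    exact Eventually.of_forall fun k => (hab (ψ k)).le
  · choose a ha hab using fun k => h2 (φ k) b hb
    obtain ⟨a', ha', ψ, hψ, hal⟩ := hA.tendsto_subseq ha
    refine ⟨a', ha', ?_⟩
    have e0 : Tendsto (fun k => f (φ (ψ k)) (a (ψ k))) atTop (𝓝 (p.1 a' + p.2)) := by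
      rw [tendsto_iff_dist_tendsto_zero]
      have e1 := (hlim1 a').comp hψ.tendsto_atTop
      rw [tendsto_iff_dist_tendsto_zero] at e1 hal
      have e2 := hal.add e1
      rw [add_zero] at e2
      refine squeeze_zero (fun k => dist_nonneg) (fun k => ?_) e2
      have e3 := dist_triangle (f (φ (ψ k)) (a (ψ k))) (f (φ (ψ k)) a') (p.1 a' + p.2)
      rw [(hf (φ (ψ k))).dist_eq] at e3
      exact e3
    have e1 := e0.dist (tendsto_const_nhds (x := b))
    refine le_of_tendsto_of_tendsto e1 (hsmall.comp hψ.tendsto_atTop) ?_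
    exact Eventually.of_forall fun k => (hab (ψ k)).le

/-- The upper bound. -/
theorem dGH_le {n : ℕ} {A B : Set (EuclideanSpace ℝ (Fin n))} {d : ℝ}
    {f : EuclideanSpace ℝ (Fin n) → EuclideanSpace ℝ (Fin n)} (hf : Isometry f)
    (h1 : ∀ a ∈ A, ∃ b ∈ B, dist (f a) b ≤ d) (h2 : ∀ b ∈ B, ∃ a ∈ A, dist (f a) b ≤ d) :
    dGH A B ≤ ENNReal.ofReal d := by
  unfold dGH
  refine (iInf_le _ f).trans ((iInf_le _ hf).trans ((iInf_le _ id).trans
    ((iInf_le _ isometry_id).trans ?_)))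
  rw [Set.image_id]
  refine hausdorffEDist_le_of_mem_edist ?_ ?_
  · rintro _ ⟨a, ha, rfl⟩
    obtain ⟨b, hb, hab⟩ := h1 a ha
    exact ⟨b, hb, by rw [edist_dist]; exact ENNReal.ofReal_le_ofReal hab⟩
  · intro b hb
    obtain ⟨a, ha, hab⟩ := h2 b hb
    exact ⟨f a, Set.mem_image_of_mem f ha, by
      rw [edist_dist, dist_comm]; exact ENNReal.ofReal_le_ofReal hab⟩

end Pool.Agent.Lib.MP_004e29_lc
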