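import Pool.Agent.Lib.MP_004e29_lc.Sem

/-!
# The second direction
-/

namespace Pool.Agent.Lib.MP_004e29_lc

open Finset

variable {k m l : ℕ} {F : PolyZ}

/-- The product of the reflections of the planes. -/
noncomputable def refl (k m l : ℕ) (X s : ℕ → ℝ) (u : ℕ → ℝ) (j : ℕ) : ℝ :=
  if j < k then X j * u j + s j * u (nT k m l + j) else
    if j < nT k m l then u j else
      s (j - nT k m l) * u (j - nT k m l) - X (j - nT k m l) * u j

theorem refl_one {X s u : ℕ → ℝ} {i : ℕ} (hi : i < k) :
    refl k m l X s u i = X i * u i + s i * u (nT k m l + i) := by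
  unfold refl
  rw [if_pos hi]

theorem refl_two {X s u : ℕ → ℝ} {j : ℕ} (h1 : k ≤ j) (h2 : j < nT k m l) :
    refl k m l X s u j = u j := by
  unfold refl
  rw [if_neg (by omega), if_pos h2]

theorem refl_three {X s u : ℕ → ℝ} {i : ℕ} :
    refl k m l X s u (nT k m l + i) = s i * u i - X i * u (nT k m l + i) := by
  unfold refl
  rw [if_neg (by unfold nT; omega), if_neg (by omega), Nat.add_sub_cancel_left]

/-- The product of the reflections, on points. -/
noncomputable def reflE (X s : ℕ → ℝ) (v : EuclideanSpace ℝ (Fin (nN k m l))) :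
    EuclideanSpace ℝ (Fin (nN k m l)) := mk (nN k m l) (refl k m l X s (ext v))

section

variable {X s : ℕ → ℝ} (hXs : ∀ i, X i ^ 2 + s i ^ 2 = 1)
  (v w : EuclideanSpace ℝ (Fin (nN k m l)))

theorem ext_reflE {j : ℕ} (hj : j < nN k m l) : ext (reflE X s v) j =
    refl k m l X s (ext v) j := ext_mk _ hj

theorem ext_one {i : ℕ} (hi : i < k) : ext (reflE X s v) i =
    X i * ext v i + s i * ext v (nT k m l + i) := by
  rw [ext_reflE v (by unfold nN nT; omega), refl_one hi]

theorem ext_two {j : ℕ} (h1 : k ≤ j) (h2 : j < nT k m l) : ext (reflE X s v) j = ext v j := by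
  rw [ext_reflE v (by unfold nN; omega), refl_two h1 h2]

theorem ext_three {i : ℕ} (hi : i < k) : ext (reflE X s v) (nT k m l + i) =
    s i * ext v i - X i * ext v (nT k m l + i) := by
  rw [ext_reflE v (by unfold nN; omega), refl_three]

include hXs

theorem reflE_isometry : Isometry (reflE X s : EuclideanSpace ℝ (Fin (nN k m l)) → _) := by
  refine Isometry.of_dist_eq fun v w => ?_
  rw [← sq_eq_sq₀ dist_nonneg dist_nonneg, dist_sq_ext, dist_sq_ext,
    sum_split (fun j => (ext (reflE X s v) j - ext (reflE X s w) j) ^ 2),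
    sum_split (fun j => (ext v j - ext w j) ^ 2)]
  congr 1
  · congr 1
    · refine Finset.sum_congr rfl fun i hi => ?_
      have hi' := mem_range.1 hi
      rw [ext_one v hi', ext_one w hi', ext_three v hi', ext_three w hi']
      linear_combination ((ext v i - ext w i) ^ 2 +
        (ext v (nT k m l + i) - ext w (nT k m l + i)) ^ 2) * hXs i
    · refine Finset.sum_congr rfl fun j hj => ?_
      have hj' := mem_range.1 hj
      rw [ext_two v (by omega) (by unfold nT; omega), ext_two w (by omega) (by unfold nT; omega)]
  · refine Finset.sum_congr rfl fun j hj => ?_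
    have hj' := mem_range.1 hj
    rw [ext_two v (by omega) (by unfold nT; omega), ext_two w (by omega) (by unfold nT; omega)]

theorem reflE_invol : reflE X s (reflE X s v) = v := by
  refine ext_inj fun j hj => ?_
  by_cases h1 : j < k
  · rw [ext_one _ h1, ext_one _ h1, ext_three _ h1]
    linear_combination ext v j * hXs j
  by_cases h2 : j < nT k m l
  · rw [ext_two _ (by omega) h2, ext_two _ (by omega) h2]
  · obtain ⟨i, rfl⟩ : ∃ i, j = nT k m l + i := ⟨j - nT k m l, by omega⟩
    have h3 : i < k := by unfold nN at hj; omega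
    rw [ext_three _ h3, ext_one _ h3, ext_three _ h3]
    linear_combination ext v (nT k m l + i) * hXs i

theorem sum_reflE : ∑ j ∈ range (nN k m l), ext (reflE X s v) j ^ 2 =
    ∑ j ∈ range (nN k m l), ext v j ^ 2 := by
  rw [sum_split (fun j => ext (reflE X s v) j ^ 2), sum_split (fun j => ext v j ^ 2)]
  congr 1
  · congr 1
    · refine Finset.sum_congr rfl fun i hi => ?_
      have hi' := mem_range.1 hi
      rw [ext_one v hi', ext_three v hi']
      linear_combination (ext v i ^ 2 + ext v (nT k m l + i) ^ 2) * hXs i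
    · refine Finset.sum_congr rfl fun j hj => ?_
      have hj' := mem_range.1 hj
      rw [ext_two v (by omega) (by unfold nT; omega)]
  · refine Finset.sum_congr rfl fun j hj => ?_
    have hj' := mem_range.1 hj
    rw [ext_two v (by omega) (by unfold nT; omega)]

theorem PS_reflE {t : ℕ} {r : ℝ} (h : PS k m l (ext v) t r) :
    PS k m l (ext (reflE X s v)) t r := by
  refine ⟨fun j hj hb => ?_, by rw [sum_reflE hXs, h.2]⟩
  by_cases h1 : j < k
  · have e1 : j < nT k m l := by unfold nT; omega
    have e2 : blk (nT k m l) j = j := blk_eq_of_lt e1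
    have e3 : blk (nT k m l) (nT k m l + j) = j := by
      unfold blk
      rw [if_neg (by omega), Nat.add_sub_cancel_left]
    rw [ext_one _ h1, h.1 j hj hb, h.1 _ (by unfold nN; omega) (by rw [e3, ← e2]; exact hb)]
    ring
  by_cases h2 : j < nT k m l
  · rw [ext_two _ (by omega) h2, h.1 j hj hb]
  · obtain ⟨i, rfl⟩ : ∃ i, j = nT k m l + i := ⟨j - nT k m l, by omega⟩
    have h3 : i < k := by unfold nN at hj; omega
    have e1 : i < nT k m l := by unfold nT; omega
    have e2 : blk (nT k m l) i = i := blk_eq_of_lt e1
    have e3 : blk (nT k m l) (nT k m l + i) = i := by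
      unfold blk
      rw [if_neg (by omega), Nat.add_sub_cancel_left]
    rw [ext_three _ h3, h.1 _ hj hb, h.1 i (by unfold nN; omega) (by rw [e2, ← e3]; exact hb)]
    ring

theorem PC_reflE (h : PC k m l (ext v)) : PC k m l (ext (reflE X s v)) := by
  refine ⟨fun i hi => ?_, fun j hj => ?_⟩
  · rw [ext_one _ hi, ext_three _ hi, ← h.1 i hi]
    linear_combination (ext v i ^ 2 + ext v (nT k m l + i) ^ 2) * hXs i
  · rw [ext_two _ (by omega) (by unfold nT; omega)]
    exact h.2 j hj

theorem PA2_reflE (h : PA2 k m l (ext v)) : PA2 k m l (ext (reflE X s v)) := by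
  refine ⟨PC_reflE hXs v h.1, ?_⟩
  rw [← h.2]
  refine Finset.sum_congr rfl fun j hj => ?_
  have hj' := mem_range.1 hj
  rw [ext_two v (by omega) (by unfold nT; omega)]

end

theorem PS_smul {v : EuclideanSpace ℝ (Fin (nN k m l))} {t : ℕ} {r c : ℝ}
    (h : PS k m l (ext v) t r) : PS k m l (ext (c • v)) t (c * r) := by
  refine ⟨fun j hj hb => by rw [ext_smul, h.1 j hj hb, mul_zero], ?_⟩
  rw [mul_pow, ← h.2, Finset.mul_sum]
  exact Finset.sum_congr rfl fun j _ => by rw [ext_smul, mul_pow]

/-- The second direction. -/
theorem dGH_of_isTrue {S : Sent} (h : S.IsTrue) :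
    dGH (setA S.k S.m S.l) (setB S.k S.m S.l S.F) ≤ ENNReal.ofReal (S.l + 1) := by
  obtain ⟨k, m, l, F, wf⟩ := S
  obtain ⟨x, hx, hyz⟩ := h
  dsimp only at x hx hyz wf ⊢
  have h5 : (0 : ℝ) ≤ l := Nat.cast_nonneg l
  have hN : nN k m l = k + m + l + 1 + k := rfl
  have hT : nT k m l = k + m + l + 1 := rfl
  set X : ℕ → ℝ := fun i => if h : i < k then x ⟨i, h⟩ else 0 with hX
  set s : ℕ → ℝ := fun i => Real.sqrt (1 - X i ^ 2) with hs
  have hX1 : ∀ i, X i ^ 2 ≤ 1 := by
    intro i
    rw [hX]
    dsimp only
    split_ifs with h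
    · exact (sq_le_one_iff_abs_le_one _).2 (hx _)
    · norm_num
  have hXs : ∀ i, X i ^ 2 + s i ^ 2 = 1 := by
    intro i
    rw [hs]
    dsimp only
    rw [Real.sq_sqrt (by linarith [hX1 i])]
    ring
  refine dGH_le (reflE_isometry hXs) (fun a ha => ?_) fun b hb => ?_
  · rcases mem_setA.1 ha with ha | ha | ⟨t, ht, ha⟩
    · -- a point of `A1`
      obtain ⟨z, hz1, hz2⟩ := hyz (fun j => ext a (k + j)) fun j =>
        (sq_le_one_iff_abs_le_one _).1 (ha.2.2.1 j j.2)
      set Z : ℕ → ℝ := fun j => if h : j < l then z ⟨j, h⟩ else 0 with hZ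
      have hZ1 : ∀ j, Z j ^ 2 ≤ 1 := by
        intro j
        rw [hZ]
        dsimp only
        split_ifs with h
        · exact (sq_le_one_iff_abs_le_one _).2 (hz1 _)
        · norm_num
      have hsumZ : ∑ j ∈ range l, Z j ^ 2 ≤ l := by
        refine (Finset.sum_le_sum fun j _ => hZ1 j).trans ?_
        simp
      set wl : ℝ := Real.sqrt ((l + 1) ^ 2 - ∑ j ∈ range l, Z j ^ 2) with hwl
      have hwl2 : wl ^ 2 = (l + 1) ^ 2 - ∑ j ∈ range l, Z j ^ 2 := by
        rw [hwl, Real.sq_sqrt]
        nlinarith
      set u : ℕ → ℝ := fun j => if j < k then X j else if j < k + m then ext a j else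
        if j < k + m + l then Z (j - (k + m)) else if j = k + m + l then wl else
          s (j - nT k m l) with hu
      set b := mk (nN k m l) u with hb
      have b1 : ∀ i < k, ext b i = X i := by
        intro i hi
        rw [hb, ext_mk _ (by omega), hu]
        dsimp only
        rw [if_pos hi]
      have b2 : ∀ j < m, ext b (k + j) = ext a (k + j) := by
        intro j hj
        rw [hb, ext_mk _ (by omega), hu]
        dsimp only
        rw [if_neg (by omega), if_pos (by omega)]
      have b3 : ∀ j < l, ext b (k + m + j) = Z j := by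
        intro j hj
        rw [hb, ext_mk _ (by omega), hu]
        dsimp only
        rw [if_neg (by omega), if_neg (by omega), if_pos (by omega), Nat.add_sub_cancel_left]
      have b4 : ext b (k + m + l) = wl := by
        rw [hb, ext_mk _ (by omega), hu]
        dsimp only
        rw [if_neg (by omega), if_neg (by omega), if_neg (by omega), if_pos rfl]
      have b5 : ∀ i < k, ext b (nT k m l + i) = s i := by
        intro i hi
        rw [hb, ext_mk _ (by omega), hu]
        dsimp only
        rw [if_neg (by omega), if_neg (by omega), if_neg (by omega), if_neg (by omega),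
          Nat.add_sub_cancel_left]
      have hw : ∑ j ∈ range (l + 1), ext b (k + m + j) ^ 2 = (l + 1) ^ 2 := by
        rw [Finset.sum_range_succ, b4, hwl2,
          Finset.sum_congr rfl fun j hj => by rw [b3 j (mem_range.1 hj)]]
        ring
      refine ⟨b, mem_setB.2 (Or.inl ⟨⟨fun i hi => ?_, fun j hj => ?_⟩, fun j hj => ?_, hw, ?_⟩), ?_⟩
      · rw [b1 i hi, b5 i hi, hXs]
      · rw [b2 j hj]
        exact ha.2.2.1 j hj
      · rw [b3 j hj]
        exact hZ1 j
      · rw [← hz2]
        refine evalP_congr fun q hq i hi => ?_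
        have hi' := wf q hq i hi
        unfold join
        dsimp only
        split_ifs with c1 c2 c3
        · rw [b1 i c1, hX]
          dsimp only
          rw [dif_pos c1]
        · have := b2 (i - k) c2
          rw [Nat.add_sub_cancel' (by omega)] at this
          rw [this]
          congr 1
          omega
        · have := b3 (i - k - m) c3
          rw [show k + m + (i - k - m) = i by omega] at this
          rw [this, hZ]
          dsimp only
          rw [dif_pos c3]
        · omega
      · have hd : dist (reflE X s a) b ^ 2 = ((l : ℝ) + 1) ^ 2 := by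
          rw [dist_sq_ext, sum_split (fun j => (ext (reflE X s a) j - ext b j) ^ 2)]
          have z1 : ∑ i ∈ range k, ((ext (reflE X s a) i - ext b i) ^ 2 +
              (ext (reflE X s a) (nT k m l + i) - ext b (nT k m l + i)) ^ 2) = 0 := by
            refine Finset.sum_eq_zero fun i hi => ?_
            have hi' := mem_range.1 hi
            rw [ext_one _ hi', ext_three _ hi', b1 i hi', b5 i hi', ha.1 i hi', ha.2.1 i hi']
            ring
          have z2 : ∑ j ∈ range m, (ext (reflE X s a) (k + j) - ext b (k + j)) ^ 2 = 0 := by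
            refine Finset.sum_eq_zero fun j hj => ?_
            have hj' := mem_range.1 hj
            rw [ext_two _ (by omega) (by omega), b2 j hj']
            ring
          have z3 : ∑ j ∈ range (l + 1), (ext (reflE X s a) (k + m + j) - ext b (k + m + j)) ^ 2 =
              ∑ j ∈ range (l + 1), ext b (k + m + j) ^ 2 := by
            refine Finset.sum_congr rfl fun j hj => ?_
            have hj' := mem_range.1 hj
            rw [ext_two _ (by omega) (by omega), ha.2.2.2 j hj']
            ring
          rw [z1, z2, z3, hw]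
          ring
        rw [sq_eq_sq₀ dist_nonneg (by linarith)] at hd
        exact hd.le
    · -- a point of `A2`
      exact ⟨_, mem_setB.2 (Or.inr (Or.inl (PA2_reflE hXs a ha))), by rw [dist_self]; linarith⟩
    · -- a point of a sphere
      have hR := rad_pos (k := k) (m := m) (l := l) t
      have h1 := PS_reflE hXs a ha
      have h2 := PS_smul (c := ((rad k m l t : ℝ) + (l + 1)) / rad k m l t) h1
      rw [div_mul_cancel₀ _ hR.ne'] at h2
      refine ⟨_, mem_setB.2 (Or.inr (Or.inr ⟨t, ht, h2⟩)), ?_⟩
      have h3 : ‖reflE X s a‖ = rad k m l t := norm_of_PS hR.le h1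
      have h4 : reflE X s a - (((rad k m l t : ℝ) + (l + 1)) / rad k m l t) • reflE X s a =
          (-(((l : ℝ) + 1) / rad k m l t)) • reflE X s a := by
        rw [neg_smul, add_div, div_self hR.ne', add_smul, one_smul]
        abel
      rw [dist_eq_norm, h4, norm_smul, h3, norm_neg, Real.norm_of_nonneg (by positivity),
        div_mul_cancel₀ _ hR.ne']
  · rcases mem_setB.1 hb with hb | hb | ⟨t, ht, hb⟩
    · -- a point of `B1`
      set u : ℕ → ℝ := fun j => if j < k + m then ext b j else
        if j < nT k m l then 2 * ext b j else ext b j with hu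
      set a' := mk (nN k m l) u with ha'
      have a1 : ∀ i < k, ext a' i = ext b i := by
        intro i hi
        rw [ha', ext_mk _ (by omega), hu]
        dsimp only
        rw [if_pos (by omega)]
      have a2 : ∀ j < m, ext a' (k + j) = ext b (k + j) := by
        intro j hj
        rw [ha', ext_mk _ (by omega), hu]
        dsimp only
        rw [if_pos (by omega)]
      have a3 : ∀ j < l + 1, ext a' (k + m + j) = 2 * ext b (k + m + j) := by
        intro j hj
        rw [ha', ext_mk _ (by omega), hu]
        dsimp only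
        rw [if_neg (by omega), if_pos (by omega)]
      have a5 : ∀ i < k, ext a' (nT k m l + i) = ext b (nT k m l + i) := by
        intro i hi
        rw [ha', ext_mk _ (by omega), hu]
        dsimp only
        rw [if_neg (by omega), if_neg (by omega)]
      have hA2 : PA2 k m l (ext a') := by
        refine ⟨⟨fun i hi => ?_, fun j hj => ?_⟩, ?_⟩
        · rw [a1 i hi, a5 i hi]
          exact hb.1.1 i hi
        · rw [a2 j hj]
          exact hb.1.2 j hj
        · rw [Finset.sum_congr rfl fun j hj => by rw [a3 j (mem_range.1 hj), mul_pow],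
            ← Finset.mul_sum, hb.2.2.1]
          ring
      refine ⟨reflE X s a', mem_setA.2 (Or.inr (Or.inl (PA2_reflE hXs a' hA2))), ?_⟩
      rw [reflE_invol hXs]
      have hd : dist a' b ^ 2 = ((l : ℝ) + 1) ^ 2 := by
        rw [dist_sq_ext, sum_split (fun j => (ext a' j - ext b j) ^ 2)]
        have z1 : ∑ i ∈ range k, ((ext a' i - ext b i) ^ 2 +
            (ext a' (nT k m l + i) - ext b (nT k m l + i)) ^ 2) = 0 := by
          refine Finset.sum_eq_zero fun i hi => ?_
          have hi' := mem_range.1 hi
          rw [a1 i hi', a5 i hi']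
          ring
        have z2 : ∑ j ∈ range m, (ext a' (k + j) - ext b (k + j)) ^ 2 = 0 := by
          refine Finset.sum_eq_zero fun j hj => ?_
          rw [a2 j (mem_range.1 hj)]
          ring
        have z3 : ∑ j ∈ range (l + 1), (ext a' (k + m + j) - ext b (k + m + j)) ^ 2 =
            ∑ j ∈ range (l + 1), ext b (k + m + j) ^ 2 := by
          refine Finset.sum_congr rfl fun j hj => ?_
          rw [a3 j (mem_range.1 hj)]
          ring
        rw [z1, z2, z3, hb.2.2.1]
        ring
      rw [sq_eq_sq₀ dist_nonneg (by linarith)] at hd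
      exact hd.le
    · -- a point of `A2`
      refine ⟨reflE X s b, mem_setA.2 (Or.inr (Or.inl (PA2_reflE hXs b hb))), ?_⟩
      rw [reflE_invol hXs, dist_self]
      linarith
    · -- a point of a sphere
      have hR := rad_pos (k := k) (m := m) (l := l) t
      have hR' : (0 : ℝ) < rad k m l t + (l + 1) := by linarith
      have h2 := PS_smul (c := (rad k m l t : ℝ) / (rad k m l t + (l + 1))) hb
      rw [div_mul_cancel₀ _ hR'.ne'] at h2
      refine ⟨reflE X s _, mem_setA.2 (Or.inr (Or.inr ⟨t, ht, PS_reflE hXs _ h2⟩)), ?_⟩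
      rw [reflE_invol hXs]
      have h3 : ‖b‖ = rad k m l t + (l + 1) := norm_of_PS hR'.le hb
      have h4 : ((rad k m l t : ℝ) / (rad k m l t + (l + 1))) • b - b =
          (-(((l : ℝ) + 1) / (rad k m l t + (l + 1)))) • b := by
        have e1 : (rad k m l t : ℝ) / (rad k m l t + (l + 1)) =
            1 - ((l : ℝ) + 1) / (rad k m l t + (l + 1)) := by
          rw [eq_sub_iff_add_eq, ← add_div, div_self hR'.ne']
        rw [e1, sub_smul, one_smul, neg_smul]
        abel
      rw [dist_eq_norm, h4, norm_smul, h3, norm_neg, Real.norm_of_nonneg (by positivity),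
        div_mul_cancel₀ _ hR'.ne']

/-- Correctness of the reduction. -/
theorem isTrue_iff (S : Sent) : S.IsTrue ↔
    dGH (setA S.k S.m S.l) (setB S.k S.m S.l S.F) ≤ ENNReal.ofReal (S.l + 1) :=
  ⟨dGH_of_isTrue, isTrue_of_dGH⟩

end Pool.Agent.Lib.MP_004e29_lc
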