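import Mathlib

/-!
# The Gromov-Hausdorff distance problem: definitions
-/

namespace Pool.Agent.Lib.MP_004e29_lc

open scoped ENNReal

/-! ### Polynomials and formulas -/

/-- A polynomial with integer coefficients in the variables `v 0, v 1, ...`: a sum of monomials,
the monomial `(c, [i, j, ...])` being `c * v i * v j * ...`. -/
abbrev PolyZ := List (ℤ × List ℕ)

/-- The value of a polynomial. -/
def evalP (v : ℕ → ℝ) (p : PolyZ) : ℝ := (p.map fun m => (m.1 : ℝ) * (m.2.map v).prod).sum

/-- Boolean combinations of polynomial equations and inequalities. -/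
inductive Form
  /-- `p = 0` -/
  | eq0 (p : PolyZ)
  /-- `p ≥ 0` -/
  | ge0 (p : PolyZ)
  /-- `p > 0` -/
  | gt0 (p : PolyZ)
  /-- negation -/
  | not (f : Form)
  /-- conjunction -/
  | and (f g : Form)
  /-- disjunction -/
  | or (f g : Form)

/-- The truth value of a formula. -/
def Form.holds (v : ℕ → ℝ) : Form → Prop
  | .eq0 p => evalP v p = 0
  | .ge0 p => 0 ≤ evalP v p
  | .gt0 p => 0 < evalP v p
  | .not f => ¬ f.holds v
  | .and f g => f.holds v ∧ g.holds v
  | .or f g => f.holds v ∨ g.holds v

/-- The coordinates of a point of `ℝ ^ n` as values of the variables; the variables `v i` with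
`n ≤ i` have the value `0`. -/
def ext {n : ℕ} (x : EuclideanSpace ℝ (Fin n)) (i : ℕ) : ℝ := if h : i < n then x ⟨i, h⟩ else 0

/-- The semialgebraic subset of `ℝ ^ n` defined by a formula. -/
def Sol (n : ℕ) (φ : Form) : Set (EuclideanSpace ℝ (Fin n)) := {x | φ.holds (ext x)}

/-! ### The problem GHD -/

/-- The Euclidean Gromov-Hausdorff distance of two subsets of `ℝ ^ n`: the infimum of the
Hausdorff distances of `f(A)` and `g(B)` over all isometries `f`, `g` of `ℝ ^ n`. -/
noncomputable def dGH {n : ℕ} (A B : Set (EuclideanSpace ℝ (Fin n))) : ℝ≥0∞ :=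
  ⨅ (f : EuclideanSpace ℝ (Fin n) → EuclideanSpace ℝ (Fin n)) (_ : Isometry f)
    (g : EuclideanSpace ℝ (Fin n) → EuclideanSpace ℝ (Fin n)) (_ : Isometry g),
      Metric.hausdorffEDist (f '' A) (g '' B)

/-- An instance of GHD: the dimension, two formulas, and a rational number. -/
structure Inst where
  /-- the dimension -/
  n : ℕ
  /-- the formula defining `A` -/
  A : Form
  /-- the formula defining `B` -/
  B : Form
  /-- the bound -/
  d : ℚ

/-- The instance belongs to GHD: the Gromov-Hausdorff distance is at most `d`. -/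
def Inst.InGHD (I : Inst) : Prop :=
  0 ≤ I.d ∧ dGH (Sol I.n I.A) (Sol I.n I.B) ≤ ENNReal.ofReal (I.d : ℝ)

/-! ### Bounded sentences -/

/-- A bounded sentence `∃ x ∈ [-1,1]^k ∀ y ∈ [-1,1]^m ∃ z ∈ [-1,1]^l, F (x, y, z) = 0`. -/
structure Sent where
  /-- number of variables of the first block -/
  k : ℕ
  /-- number of variables of the second block -/
  m : ℕ
  /-- number of variables of the third block -/
  l : ℕ
  /-- the polynomial -/
  F : PolyZ
  /-- only the variables `v 0, ..., v (k + m + l - 1)` occur in it -/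
  wf : ∀ q ∈ F, ∀ i ∈ q.2, i < k + m + l

/-- The values of the variables: `v 0, ..., v (k-1)` are `x`, the next `m` variables are `y`, and
the next `l` variables are `z`. -/
def join {k m l : ℕ} (x : Fin k → ℝ) (y : Fin m → ℝ) (z : Fin l → ℝ) (i : ℕ) : ℝ :=
  if h : i < k then x ⟨i, h⟩ else if h : i - k < m then y ⟨i - k, h⟩ else
    if h : i - k - m < l then z ⟨i - k - m, h⟩ else 0

/-- The truth of a bounded sentence. -/
def Sent.IsTrue (S : Sent) : Prop :=
  ∃ x : Fin S.k → ℝ, (∀ i, |x i| ≤ 1) ∧ ∀ y : Fin S.m → ℝ, (∀ i, |y i| ≤ 1) →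
    ∃ z : Fin S.l → ℝ, (∀ i, |z i| ≤ 1) ∧ evalP (join x y z) S.F = 0

/-! ### Words -/

/-- The alphabet: the bits `inl b` and twelve marks `inr i`. -/
abbrev Sym := Bool ⊕ Fin 12

/-- An integer: the mark `0` if it is negative, and the bits of the absolute value (least
significant bit first). -/
def encZ (c : ℤ) : List Sym :=
  (if c < 0 then [Sum.inr 0] else []) ++ (Nat.bits c.natAbs).map Sum.inl

/-- A polynomial: every monomial is written as its coefficient, followed by the variables (`v i`
is written as the mark `1`, repeated `i` times, and the mark `2`) and the mark `3`; the polynomial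
is followed by the mark `4`. -/
def encPoly (p : PolyZ) : List Sym :=
  p.flatMap (fun m => encZ m.1 ++
    m.2.flatMap (fun i => List.replicate i (Sum.inr 1) ++ [Sum.inr 2]) ++ [Sum.inr 3]) ++
    [Sum.inr 4]

/-- A formula, in Polish notation: the marks `5, ..., 10` stand for `= 0`, `≥ 0`, `> 0`, `¬`, `∧`,
`∨`. -/
def Form.encode : Form → List Sym
  | .eq0 p => Sum.inr 5 :: encPoly p
  | .ge0 p => Sum.inr 6 :: encPoly p
  | .gt0 p => Sum.inr 7 :: encPoly p
  | .not f => Sum.inr 8 :: f.encode
  | .and f g => Sum.inr 9 :: (f.encode ++ g.encode)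
  | .or f g => Sum.inr 10 :: (f.encode ++ g.encode)

/-- The word of an instance of GHD: the mark `1`, repeated `n` times, the two formulas, the
numerator of `d`, the mark `11`, and the denominator of `d`. -/
def Inst.encode (I : Inst) : List Sym :=
  List.replicate I.n (Sum.inr 1) ++ I.A.encode ++ I.B.encode ++ encZ I.d.num ++ [Sum.inr 11] ++
    (Nat.bits I.d.den).map Sum.inl

/-- The word of a bounded sentence: the mark `5`, repeated `k` times, the mark `6`, repeated `m`
times, the mark `7`, repeated `l` times, and the polynomial. -/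
def Sent.encode (S : Sent) : List Sym :=
  List.replicate S.k (Sum.inr 5) ++ List.replicate S.m (Sum.inr 6) ++
    List.replicate S.l (Sum.inr 7) ++ encPoly S.F

end Pool.Agent.Lib.MP_004e29_lc
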