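import Pool.Agent.Lib.MP_004e29_lc.Defs

/-!
# Formulas in disjunctive normal form
-/

namespace Pool.Agent.Lib.MP_004e29_lc

/-- An atom: `(true, p)` is `p = 0`, `(false, p)` is `p ≥ 0`. -/
def atom (a : Bool × PolyZ) : Form := if a.1 then Form.eq0 a.2 else Form.ge0 a.2

/-- The conjunction of a list of atoms. -/
def conj (c : List (Bool × PolyZ)) : Form :=
  c.foldr (fun a f => Form.and (atom a) f) (Form.eq0 [])

/-- The disjunction of a list of conjunctions. -/
def dnf (cs : List (List (Bool × PolyZ))) : Form :=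
  cs.foldr (fun c f => Form.or (conj c) f) (Form.not (Form.eq0 []))

theorem holds_conj (v : ℕ → ℝ) (c : List (Bool × PolyZ)) :
    (conj c).holds v ↔ ∀ a ∈ c, (atom a).holds v := by
  induction c with
  | nil => simp [conj, Form.holds, evalP]
  | cons a c ih =>
    have : conj (a :: c) = Form.and (atom a) (conj c) := rfl
    rw [this]
    simp only [Form.holds, ih, List.forall_mem_cons]

theorem holds_dnf (v : ℕ → ℝ) (cs : List (List (Bool × PolyZ))) :
    (dnf cs).holds v ↔ ∃ c ∈ cs, ∀ a ∈ c, (atom a).holds v := by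
  induction cs with
  | nil => simp [dnf, Form.holds, evalP]
  | cons c cs ih =>
    have : dnf (c :: cs) = Form.or (conj c) (dnf cs) := rfl
    rw [this]
    simp only [Form.holds, ih, holds_conj, List.exists_mem_cons_iff]

/-- The word of an atom. -/
def encAtom (a : Bool × PolyZ) : List Sym :=
  (if a.1 then Sum.inr 5 else Sum.inr 6) :: encPoly a.2

theorem encode_atom (a : Bool × PolyZ) : (atom a).encode = encAtom a := by
  unfold atom encAtom
  split_ifs <;> rfl

/-- The word of a conjunction. -/
theorem encode_conj (c : List (Bool × PolyZ)) :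
    (conj c).encode = c.flatMap (fun a => Sum.inr 9 :: encAtom a) ++ [Sum.inr 5, Sum.inr 4] := by
  induction c with
  | nil => rfl
  | cons a c ih =>
    have : conj (a :: c) = Form.and (atom a) (conj c) := rfl
    rw [this, Form.encode, ih, encode_atom, List.flatMap_cons]
    simp

/-- The word of a disjunction. -/
theorem encode_dnf (cs : List (List (Bool × PolyZ))) :
    (dnf cs).encode = cs.flatMap (fun c => Sum.inr 10 ::
      (c.flatMap (fun a => Sum.inr 9 :: encAtom a) ++ [Sum.inr 5, Sum.inr 4])) ++
        [Sum.inr 8, Sum.inr 5, Sum.inr 4] := by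
  induction cs with
  | nil => rfl
  | cons c cs ih =>
    have : dnf (c :: cs) = Form.or (conj c) (dnf cs) := rfl
    rw [this, Form.encode, ih, encode_conj, List.flatMap_cons]
    simp

/-! ### Some polynomials -/

/-- `v i - c` -/
def linP (i : ℕ) (c : ℤ) : PolyZ := [(1, [i]), (-c, [])]

/-- `1 - (v i) ^ 2` -/
def boxP (i : ℕ) : PolyZ := [(1, []), (-1, [i, i])]

/-- `(v i) ^ 2 + (v j) ^ 2 - 1` -/
def circP (i j : ℕ) : PolyZ := [(1, [i, i]), (1, [j, j]), (-1, [])]

/-- `∑ j < b, v (a + j) ^ 2 - c` -/
def sqP (a b : ℕ) (c : ℤ) : PolyZ :=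
  (List.range b).map (fun j => ((1 : ℤ), [a + j, a + j])) ++ [(-c, [])]

theorem evalP_linP (v : ℕ → ℝ) (i : ℕ) (c : ℤ) : evalP v (linP i c) = v i - c := by
  simp [evalP, linP]
  ring

theorem evalP_boxP (v : ℕ → ℝ) (i : ℕ) : evalP v (boxP i) = 1 - v i ^ 2 := by
  simp [evalP, boxP]
  ring

theorem evalP_circP (v : ℕ → ℝ) (i j : ℕ) : evalP v (circP i j) = v i ^ 2 + v j ^ 2 - 1 := by
  simp [evalP, circP]
  ring

theorem evalP_sqP (v : ℕ → ℝ) (a b : ℕ) (c : ℤ) :
    evalP v (sqP a b c) = ∑ j ∈ Finset.range b, v (a + j) ^ 2 - c := by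
  have h1 : evalP v (sqP a b c) = ((List.range b).map fun j => v (a + j) ^ 2).sum - c := by
    unfold evalP sqP
    rw [List.map_append, List.sum_append, List.map_map]
    congr 1
    · congr 1
      refine List.map_congr_left fun j _ => ?_
      simp
      ring
    · simp
  rw [h1]
  congr 1

theorem evalP_congr {v w : ℕ → ℝ} {p : PolyZ} (h : ∀ q ∈ p, ∀ i ∈ q.2, v i = w i) :
    evalP v p = evalP w p := by
  unfold evalP
  congr 1
  refine List.map_congr_left fun q hq => ?_
  congr 2
  exact List.map_congr_left fun i hi => h q hq i hi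

theorem holds_eq0 (v : ℕ → ℝ) (p : PolyZ) : (atom (true, p)).holds v ↔ evalP v p = 0 := Iff.rfl

theorem holds_ge0 (v : ℕ → ℝ) (p : PolyZ) : (atom (false, p)).holds v ↔ 0 ≤ evalP v p := Iff.rfl

/-! ### Closedness -/

theorem continuous_ext {n : ℕ} (i : ℕ) : Continuous fun x : EuclideanSpace ℝ (Fin n) => ext x i := by
  unfold ext
  split_ifs with h
  · fun_prop
  · exact continuous_const

theorem continuous_evalP {n : ℕ} (p : PolyZ) :
    Continuous fun x : EuclideanSpace ℝ (Fin n) => evalP (ext x) p := by
  have hprod : ∀ s : List ℕ, Continuous fun x : EuclideanSpace ℝ (Fin n) => (s.map (ext x)).prod := by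
    intro s
    induction s with
    | nil => simpa using continuous_const
    | cons i s ih =>
      simp only [List.map_cons, List.prod_cons]
      exact (continuous_ext i).mul ih
  induction p with
  | nil => simpa [evalP] using continuous_const
  | cons q p ih =>
    have : (fun x : EuclideanSpace ℝ (Fin n) => evalP (ext x) (q :: p)) =
        fun x => (q.1 : ℝ) * (q.2.map (ext x)).prod + evalP (ext x) p := by
      funext x
      simp [evalP]
    rw [this]
    exact (continuous_const.mul (hprod q.2)).add ih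

theorem isClosed_sol {n : ℕ} (cs : List (List (Bool × PolyZ))) : IsClosed (Sol n (dnf cs)) := by
  have h1 : Sol n (dnf cs) = ⋃ c ∈ {c | c ∈ cs}, ⋂ a ∈ {a | a ∈ c},
      {x : EuclideanSpace ℝ (Fin n) | (atom a).holds (ext x)} := by
    ext x
    simp only [Sol, Set.mem_ofPred_eq, holds_dnf, Set.mem_iUnion, Set.mem_iInter, exists_prop]
  rw [h1]
  refine (List.finite_toSet cs).isClosed_biUnion fun c _ => isClosed_biInter fun a _ => ?_
  unfold atom
  rcases a with ⟨b, p⟩
  cases b
  · exact isClosed_le continuous_const (continuous_evalP p)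
  · exact isClosed_eq (continuous_evalP p) continuous_const

end Pool.Agent.Lib.MP_004e29_lc
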