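import Pool.Agent.Lib.MP_004e29_lc.Conv
import Pool.Agent.Lib.PolyTime.RatBin
import Pool.Agent.Lib.PolyTime.Bridge

/-!
# The reduction is computable in polynomial time
-/

namespace Pool.Agent.Lib.MP_004e29_lc

open Pool.Agent.Lib.PolyTime PolyF Turing

variable {α : Type} [TEnc α]

/-! ### Printing -/

theorem polyF_encZ {f : α → ℤ} (hf : PolyF f) : PolyF (fun x => encZ (f x)) := by
  unfold encZ
  have h1 : PolyF (fun x => if f x < 0 then [(Sum.inr 0 : Sym)] else []) :=
    ite (hf.intLt (const 0)) (const _) (const _)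
  have h2 : PolyF (fun x => (Nat.bits (f x).natAbs).map (Sum.inl : Bool → Sym)) :=
    (hf.intNatAbs.bits).map (h := fun _ b => (Sum.inl b : Sym)) snd'.inl
  exact h1.append h2

theorem polyF_encPoly {f : α → PolyZ} (hf : PolyF f) : PolyF (fun x => encPoly (f x)) := by
  have h1 : PolyF (fun q : α × (ℤ × List ℕ) => encZ q.2.1) := polyF_encZ snd'.fst
  have h2 : PolyF (fun q : (α × (ℤ × List ℕ)) × ℕ =>
      List.replicate q.2 (Sum.inr 1 : Sym) ++ [Sum.inr 2]) :=
    (snd'.replicate (const (Sum.inr 1 : Sym))).append (const [(Sum.inr 2 : Sym)])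
  have h3 : PolyF (fun q : α × (ℤ × List ℕ) =>
      q.2.2.flatMap (fun i => List.replicate i (Sum.inr 1 : Sym) ++ [Sum.inr 2])) :=
    (snd'.snd).flatMap (h := fun (_ : α × (ℤ × List ℕ)) (i : ℕ) =>
      List.replicate i (Sum.inr 1 : Sym) ++ [Sum.inr 2]) h2
  have h4 : PolyF (fun q : α × (ℤ × List ℕ) => encZ q.2.1 ++
      q.2.2.flatMap (fun i => List.replicate i (Sum.inr 1 : Sym) ++ [Sum.inr 2]) ++
        [(Sum.inr 3 : Sym)]) := (h1.append h3).append (const [(Sum.inr 3 : Sym)])
  have h5 : PolyF (fun x => (f x).flatMap (fun q : ℤ × List ℕ => encZ q.1 ++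
      q.2.flatMap (fun i => List.replicate i (Sum.inr 1 : Sym) ++ [Sum.inr 2]) ++
        [(Sum.inr 3 : Sym)])) :=
    PolyF.flatMap (l := f) (h := fun (_ : α) (q : ℤ × List ℕ) => encZ q.1 ++
      q.2.flatMap (fun i => List.replicate i (Sum.inr 1 : Sym) ++ [Sum.inr 2]) ++
        [(Sum.inr 3 : Sym)]) hf h4
  exact h5.append (const [(Sum.inr 4 : Sym)])

theorem polyF_encAtom {f : α → Bool × PolyZ} (hf : PolyF f) : PolyF (fun x => encAtom (f x)) := by
  unfold encAtom
  have h1 : PolyF (fun x => (if (f x).1 = true then (Sum.inr 5 : Sym) else Sum.inr 6)) :=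
    hf.fst.finComp (fun b : Bool => (if b = true then (Sum.inr 5 : Sym) else Sum.inr 6))
  exact h1.cons (polyF_encPoly hf.snd)

theorem polyF_atoms {f : α → List (Bool × PolyZ)} (hf : PolyF f) :
    PolyF (fun x => (f x).flatMap (fun a => (Sum.inr 9 : Sym) :: encAtom a)) := by
  have h1 : PolyF (fun q : α × (Bool × PolyZ) => (Sum.inr 9 : Sym) :: encAtom q.2) :=
    (const (Sum.inr 9 : Sym)).cons (polyF_encAtom snd')
  exact PolyF.flatMap (l := f) (h := fun (_ : α) (a : Bool × PolyZ) =>
    (Sum.inr 9 : Sym) :: encAtom a) hf h1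

theorem polyF_dnf {f : α → List (List (Bool × PolyZ))} (hf : PolyF f) :
    PolyF (fun x => (dnf (f x)).encode) := by
  have h1 : PolyF (fun q : α × List (Bool × PolyZ) => (Sum.inr 10 : Sym) ::
      (q.2.flatMap (fun a => (Sum.inr 9 : Sym) :: encAtom a) ++ [Sum.inr 5, Sum.inr 4])) :=
    (const (Sum.inr 10 : Sym)).cons ((polyF_atoms snd').append
      (const [(Sum.inr 5 : Sym), Sum.inr 4]))
  have h2 : PolyF (fun x => (f x).flatMap (fun c : List (Bool × PolyZ) => (Sum.inr 10 : Sym) ::
      (c.flatMap (fun a => (Sum.inr 9 : Sym) :: encAtom a) ++ [Sum.inr 5, Sum.inr 4]))) :=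
    PolyF.flatMap (l := f) (h := fun (_ : α) (c : List (Bool × PolyZ)) => (Sum.inr 10 : Sym) ::
      (c.flatMap (fun a => (Sum.inr 9 : Sym) :: encAtom a) ++ [Sum.inr 5, Sum.inr 4])) hf h1
  have h3 := h2.append (const [(Sum.inr 8 : Sym), Sum.inr 5, Sum.inr 4])
  exact h3.congr fun x => (encode_dnf (f x)).symm

/-! ### The polynomials -/

theorem polyF_linP {i : α → ℕ} (hi : PolyF i) (c : ℤ) : PolyF (fun x => linP (i x) c) := by
  unfold linP
  exact ((const (1 : ℤ)).pair (hi.cons nil)).cons (const [((-c : ℤ), ([] : List ℕ))])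

theorem polyF_boxP {i : α → ℕ} (hi : PolyF i) : PolyF (fun x => boxP (i x)) := by
  unfold boxP
  exact (const ((1 : ℤ), ([] : List ℕ))).cons
    (((const (-1 : ℤ)).pair (hi.cons (hi.cons nil))).cons nil)

theorem polyF_circP {i j : α → ℕ} (hi : PolyF i) (hj : PolyF j) :
    PolyF (fun x => circP (i x) (j x)) := by
  unfold circP
  exact ((const (1 : ℤ)).pair (hi.cons (hi.cons nil))).cons
    (((const (1 : ℤ)).pair (hj.cons (hj.cons nil))).cons (const [((-1 : ℤ), ([] : List ℕ))]))

theorem polyF_sqP {a b : α → ℕ} {c : α → ℤ} (ha : PolyF a) (hb : PolyF b) (hc : PolyF c) :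
    PolyF (fun x => sqP (a x) (b x) (c x)) := by
  unfold sqP
  have h0 : PolyF (fun q : α × ℕ => a q.1 + q.2) := (ha.comp fst').natAdd snd'
  have h1 : PolyF (fun q : α × ℕ => ((1 : ℤ), [a q.1 + q.2, a q.1 + q.2])) :=
    (const (1 : ℤ)).pair (h0.cons (h0.cons nil))
  have h2 : PolyF (fun x => (List.range (b x)).map fun j => ((1 : ℤ), [a x + j, a x + j])) :=
    hb.range.map (h := fun (x : α) (j : ℕ) => ((1 : ℤ), [a x + j, a x + j])) h1
  have h3 : PolyF (fun x => [(-c x, ([] : List ℕ))]) := (hc.intNeg.pair (const [])).cons nil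
  exact h2.append h3

/-! ### The clauses -/

section

variable {k m l : α → ℕ} (hk : PolyF k) (hm : PolyF m) (hl : PolyF l)

include hk hm hl

theorem polyF_nT : PolyF (fun x => nT (k x) (m x) (l x)) :=
  ((hk.natAdd hm).natAdd hl).natAdd (const 1)

theorem polyF_nN : PolyF (fun x => nN (k x) (m x) (l x)) := (polyF_nT hk hm hl).natAdd hk

theorem polyF_rad {t : α → ℕ} (ht : PolyF t) : PolyF (fun x => rad (k x) (m x) (l x) (t x)) := by
  unfold rad
  exact ((hk.natAdd hm).natAdd ((const 2).natMul (hl.natAdd (const 1)))).natAdd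
    (((const 3).natMul (hl.natAdd (const 1))).natMul (ht.natAdd (const 1)))

theorem polyF_cA1 : PolyF (fun x => cA1 (k x) (m x) (l x)) := by
  unfold cA1
  have g1 : PolyF (fun q : α × ℕ => (true, linP q.2 1)) :=
    (const true).pair (polyF_linP snd' 1)
  have g2 : PolyF (fun q : α × ℕ => (true, linP (nT (k q.1) (m q.1) (l q.1) + q.2) 0)) :=
    (const true).pair (polyF_linP (((polyF_nT hk hm hl).comp fst').natAdd snd') 0)
  have g3 : PolyF (fun q : α × ℕ => (false, boxP (k q.1 + q.2))) :=
    (const false).pair (polyF_boxP ((hk.comp fst').natAdd snd'))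
  have g4 : PolyF (fun q : α × ℕ => (true, linP (k q.1 + m q.1 + q.2) 0)) :=
    (const true).pair (polyF_linP (((hk.comp fst').natAdd (hm.comp fst')).natAdd snd') 0)
  have f1 : PolyF (fun x => (List.range (k x)).map fun i => (true, linP i 1)) :=
    hk.range.map (h := fun (_ : α) (i : ℕ) => (true, linP i 1)) g1
  have f2 : PolyF (fun x => (List.range (k x)).map fun i =>
      (true, linP (nT (k x) (m x) (l x) + i) 0)) :=
    hk.range.map (h := fun (x : α) (i : ℕ) => (true, linP (nT (k x) (m x) (l x) + i) 0)) g2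
  have f3 : PolyF (fun x => (List.range (m x)).map fun j => (false, boxP (k x + j))) :=
    hm.range.map (h := fun (x : α) (j : ℕ) => (false, boxP (k x + j))) g3
  have f4 : PolyF (fun x => (List.range (l x + 1)).map fun j =>
      (true, linP (k x + m x + j) 0)) :=
    (hl.natAdd (const 1)).range.map
      (h := fun (x : α) (j : ℕ) => (true, linP (k x + m x + j) 0)) g4
  exact f1.append (f2.append (f3.append f4))

theorem polyF_cC : PolyF (fun x => cC (k x) (m x) (l x)) := by
  unfold cC
  have g1 : PolyF (fun q : α × ℕ => (true, circP q.2 (nT (k q.1) (m q.1) (l q.1) + q.2))) :=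
    (const true).pair (polyF_circP snd' (((polyF_nT hk hm hl).comp fst').natAdd snd'))
  have g3 : PolyF (fun q : α × ℕ => (false, boxP (k q.1 + q.2))) :=
    (const false).pair (polyF_boxP ((hk.comp fst').natAdd snd'))
  have f1 : PolyF (fun x => (List.range (k x)).map fun i =>
      (true, circP i (nT (k x) (m x) (l x) + i))) :=
    hk.range.map (h := fun (x : α) (i : ℕ) => (true, circP i (nT (k x) (m x) (l x) + i))) g1
  have f3 : PolyF (fun x => (List.range (m x)).map fun j => (false, boxP (k x + j))) :=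
    hm.range.map (h := fun (x : α) (j : ℕ) => (false, boxP (k x + j))) g3
  exact f1.append f3

theorem polyF_cA2 : PolyF (fun x => cA2 (k x) (m x) (l x)) := by
  unfold cA2
  have h1 : PolyF (fun x => (2 * ((l x : ℤ) + 1)) ^ 2) :=
    ((const (2 : ℤ)).intMul (hl.intOfNat.intAdd (const (1 : ℤ)))).intPow (const 2)
  have h2 : PolyF (fun x => (true, sqP (k x + m x) (l x + 1) ((2 * ((l x : ℤ) + 1)) ^ 2))) :=
    (const true).pair (polyF_sqP (hk.natAdd hm) (hl.natAdd (const 1)) h1)
  exact (polyF_cC hk hm hl).append (h2.cons nil)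

theorem polyF_cB1 : PolyF (fun x => cB1 (k x) (m x) (l x)) := by
  unfold cB1
  have g3 : PolyF (fun q : α × ℕ => (false, boxP (k q.1 + m q.1 + q.2))) :=
    (const false).pair (polyF_boxP (((hk.comp fst').natAdd (hm.comp fst')).natAdd snd'))
  have f3 : PolyF (fun x => (List.range (l x)).map fun j => (false, boxP (k x + m x + j))) :=
    hl.range.map (h := fun (x : α) (j : ℕ) => (false, boxP (k x + m x + j))) g3
  have h1 : PolyF (fun x => ((l x : ℤ) + 1) ^ 2) :=
    (hl.intOfNat.intAdd (const (1 : ℤ))).intPow (const 2)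
  have h2 : PolyF (fun x => (true, sqP (k x + m x) (l x + 1) (((l x : ℤ) + 1) ^ 2))) :=
    (const true).pair (polyF_sqP (hk.natAdd hm) (hl.natAdd (const 1)) h1)
  exact (polyF_cC hk hm hl).append (f3.append (h2.cons nil))

omit hk hm hl in
theorem polyF_blk {T j : α → ℕ} (hT : PolyF T) (hj : PolyF j) :
    PolyF (fun x => blk (T x) (j x)) := by
  unfold blk
  exact ite (hj.natLt hT) hj (hj.natSub hT)

theorem polyF_cS {t : α → ℕ} {r : α → ℤ} (ht : PolyF t) (hr : PolyF r) :
    PolyF (fun x => cS (k x) (m x) (l x) (t x) (r x)) := by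
  unfold cS
  have hT := polyF_nT hk hm hl
  have hN := polyF_nN hk hm hl
  have g1 : PolyF (fun q : α × ℕ => !decide (blk (nT (k q.1) (m q.1) (l q.1)) q.2 = t q.1)) :=
    ((polyF_blk (hT.comp fst') snd').natEq (ht.comp fst')).finComp (fun b : Bool => !b)
  have f1 : PolyF (fun x => (List.range (nN (k x) (m x) (l x))).filter
      fun j => !decide (blk (nT (k x) (m x) (l x)) j = t x)) :=
    hN.range.filter (p := fun (x : α) (j : ℕ) =>
      !decide (blk (nT (k x) (m x) (l x)) j = t x)) g1
  have g2 : PolyF (fun q : α × ℕ => (true, linP q.2 0)) :=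
    (const true).pair (polyF_linP snd' 0)
  have f2 : PolyF (fun x => ((List.range (nN (k x) (m x) (l x))).filter
      fun j => !decide (blk (nT (k x) (m x) (l x)) j = t x)).map fun j => (true, linP j 0)) :=
    f1.map (h := fun (_ : α) (j : ℕ) => (true, linP j 0)) g2
  have h2 : PolyF (fun x => (true, sqP 0 (nN (k x) (m x) (l x)) ((r x) ^ 2))) :=
    (const true).pair (polyF_sqP (const 0) hN (hr.intPow (const 2)))
  exact f2.append (h2.cons nil)

theorem polyF_cSs {e : α → ℕ} (he : PolyF e) :
    PolyF (fun x => cSs (k x) (m x) (l x) (e x)) := by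
  unfold cSs
  have hr : PolyF (fun q : α × ℕ => rad (k q.1) (m q.1) (l q.1) q.2) :=
    polyF_rad (hk.comp fst') (hm.comp fst') (hl.comp fst') snd'
  have g1 : PolyF (fun q : α × ℕ => cS (k q.1) (m q.1) (l q.1) q.2
      ((rad (k q.1) (m q.1) (l q.1) q.2 : ℤ) + (e q.1 : ℤ))) :=
    polyF_cS (hk.comp fst') (hm.comp fst') (hl.comp fst') snd'
      (hr.intOfNat.intAdd (he.comp fst').intOfNat)
  exact (polyF_nT hk hm hl).range.map (h := fun (x : α) (t : ℕ) => cS (k x) (m x) (l x) t
    ((rad (k x) (m x) (l x) t : ℤ) + (e x : ℤ))) g1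

end

/-! ### The word of the instance -/

/-- The word of `B`; `w` is the word of the polynomial. -/
def wordB (k m l : ℕ) (w : List Sym) : List Sym :=
  Sum.inr 10 :: ((cB1 k m l).flatMap (fun a => Sum.inr 9 :: encAtom a) ++
    ((Sum.inr 9 :: Sum.inr 5 :: w) ++ [Sum.inr 5, Sum.inr 4])) ++
      (dnf (cA2 k m l :: cSs k m l (l + 1))).encode

theorem encode_fB (k m l : ℕ) (F : PolyZ) : (fB k m l F).encode = wordB k m l (encPoly F) := by
  have h1 : fB k m l F = Form.or (conj (cB1 k m l ++ [(true, F)]))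
      (dnf (cA2 k m l :: cSs k m l (l + 1))) := rfl
  rw [h1, Form.encode, encode_conj, List.flatMap_append, wordB]
  simp [encAtom]

/-- The reduction. -/
def red (S : Sent) : Inst where
  n := nN S.k S.m S.l
  A := fA S.k S.m S.l
  B := fB S.k S.m S.l S.F
  d := ((S.l + 1 : ℕ) : ℚ)

/-- The word of the instance. -/
def wordI (k m l : ℕ) (w : List Sym) : List Sym :=
  List.replicate (nN k m l) (Sum.inr 1) ++ (fA k m l).encode ++ wordB k m l w ++
    encZ (l + 1 : ℕ) ++ [Sum.inr 11] ++ [Sum.inl true]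

theorem encode_red (S : Sent) : (red S).encode = wordI S.k S.m S.l (encPoly S.F) := by
  unfold Inst.encode red wordI
  dsimp only
  rw [encode_fB, Rat.num_natCast, Rat.den_natCast]
  simp

theorem polyF_wordB {k m l : α → ℕ} {w : α → List Sym} (hk : PolyF k) (hm : PolyF m)
    (hl : PolyF l) (hw : PolyF w) : PolyF (fun x => wordB (k x) (m x) (l x) (w x)) := by
  unfold wordB
  have h1 : PolyF (fun x => (cB1 (k x) (m x) (l x)).flatMap
      (fun a => (Sum.inr 9 : Sym) :: encAtom a)) := polyF_atoms (polyF_cB1 hk hm hl)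
  have h2 : PolyF (fun x => ((Sum.inr 9 : Sym) :: Sum.inr 5 :: w x) ++ [Sum.inr 5, Sum.inr 4]) :=
    ((const (Sum.inr 9 : Sym)).cons ((const (Sum.inr 5 : Sym)).cons hw)).append
      (const [(Sum.inr 5 : Sym), Sum.inr 4])
  have h3 : PolyF (fun x => cA2 (k x) (m x) (l x) :: cSs (k x) (m x) (l x) (l x + 1)) :=
    (polyF_cA2 hk hm hl).cons (polyF_cSs hk hm hl (hl.natAdd (const 1)))
  exact ((const (Sum.inr 10 : Sym)).cons (h1.append h2)).append (polyF_dnf h3)

theorem polyF_wordI {k m l : α → ℕ} {w : α → List Sym} (hk : PolyF k) (hm : PolyF m)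
    (hl : PolyF l) (hw : PolyF w) : PolyF (fun x => wordI (k x) (m x) (l x) (w x)) := by
  unfold wordI
  have h1 : PolyF (fun x => List.replicate (nN (k x) (m x) (l x)) (Sum.inr 1 : Sym)) :=
    (polyF_nN hk hm hl).replicate (const (Sum.inr 1 : Sym))
  have h2 : PolyF (fun x => (fA (k x) (m x) (l x)).encode) := by
    unfold fA
    exact polyF_dnf ((polyF_cA1 hk hm hl).cons ((polyF_cA2 hk hm hl).cons
      (polyF_cSs hk hm hl (const 0))))
  have h3 : PolyF (fun x => encZ (l x + 1 : ℕ)) :=
    polyF_encZ (hl.natAdd (const 1)).intOfNat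
  exact ((((h1.append h2).append (polyF_wordB hk hm hl hw)).append h3).append
    (const [(Sum.inr 11 : Sym)])).append (const [(Sum.inl true : Sym)])

/-! ### Reading the input -/

/-- The number of occurrences of a mark. -/
def cnt (c : Sym) (w : List Sym) : ℕ := (w.filter fun a => decide (a = c)).length

/-- The word of the polynomial. -/
def rdF (w : List Sym) : List Sym :=
  w.filter fun a => decide (a ≠ Sum.inr 5 ∧ a ≠ Sum.inr 6 ∧ a ≠ Sum.inr 7)

theorem mem_encPoly {p : PolyZ} {a : Sym} (h : a ∈ encPoly p) :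
    a ≠ Sum.inr 5 ∧ a ≠ Sum.inr 6 ∧ a ≠ Sum.inr 7 := by
  unfold encPoly at h
  rw [List.mem_append] at h
  rcases h with h | h
  · rw [List.mem_flatMap] at h
    obtain ⟨q, _, h⟩ := h
    rw [List.mem_append, List.mem_append] at h
    rcases h with (h | h) | h
    · unfold encZ at h
      rw [List.mem_append] at h
      rcases h with h | h
      · split_ifs at h
        · rw [List.mem_singleton] at h
          subst h
          decide
        · simp at h
      · rw [List.mem_map] at h
        obtain ⟨b, _, rfl⟩ := h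
        simp
    · rw [List.mem_flatMap] at h
      obtain ⟨i, _, h⟩ := h
      rw [List.mem_append] at h
      rcases h with h | h
      · rw [List.eq_of_mem_replicate h]
        decide
      · rw [List.mem_singleton] at h
        subst h
        decide
    · rw [List.mem_singleton] at h
      subst h
      decide
  · rw [List.mem_singleton] at h
    subst h
    decide

theorem cnt_append (c : Sym) (v w : List Sym) : cnt c (v ++ w) = cnt c v + cnt c w := by
  unfold cnt
  rw [List.filter_append, List.length_append]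

theorem cnt_replicate (c a : Sym) (n : ℕ) :
    cnt c (List.replicate n a) = if a = c then n else 0 := by
  unfold cnt
  rw [List.filter_replicate]
  by_cases h : a = c <;> simp [h]

theorem cnt_encPoly {c : Sym} (hc : c = Sum.inr 5 ∨ c = Sum.inr 6 ∨ c = Sum.inr 7) (p : PolyZ) :
    cnt c (encPoly p) = 0 := by
  unfold cnt
  rw [List.length_eq_zero_iff, List.filter_eq_nil_iff]
  intro a ha
  have := mem_encPoly ha
  rcases hc with rfl | rfl | rfl
  · simpa using this.1
  · simpa using this.2.1
  · simpa using this.2.2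

theorem cnt5 (S : Sent) : cnt (Sum.inr 5) S.encode = S.k := by
  unfold Sent.encode
  rw [cnt_append, cnt_append, cnt_append, cnt_replicate, cnt_replicate, cnt_replicate,
    cnt_encPoly (Or.inl rfl), if_pos rfl, if_neg (by decide), if_neg (by decide)]
  rfl

theorem cnt6 (S : Sent) : cnt (Sum.inr 6) S.encode = S.m := by
  unfold Sent.encode
  rw [cnt_append, cnt_append, cnt_append, cnt_replicate, cnt_replicate, cnt_replicate,
    cnt_encPoly (Or.inr (Or.inl rfl)), if_neg (by decide), if_pos rfl, if_neg (by decide)]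
  omega

theorem cnt7 (S : Sent) : cnt (Sum.inr 7) S.encode = S.l := by
  unfold Sent.encode
  rw [cnt_append, cnt_append, cnt_append, cnt_replicate, cnt_replicate, cnt_replicate,
    cnt_encPoly (Or.inr (Or.inr rfl)), if_neg (by decide), if_neg (by decide), if_pos rfl]
  omega

theorem rdF_encode (S : Sent) : rdF S.encode = encPoly S.F := by
  unfold Sent.encode rdF
  rw [List.filter_append, List.filter_append, List.filter_append, List.filter_replicate,
    List.filter_replicate, List.filter_replicate, if_neg (by decide), if_neg (by decide),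
    if_neg (by decide), List.nil_append, List.nil_append, List.nil_append,
    List.filter_eq_self]
  intro a ha
  exact decide_eq_true (mem_encPoly ha)

theorem polyF_cnt (c : Sym) : PolyF (cnt c) :=
  (PolyF.id.filter (p := fun _ a => decide (a = c)) (snd'.eqConst _)).length

theorem polyF_rdF : PolyF rdF := by
  have h1 : PolyF (fun q : List Sym × Sym =>
      decide (q.2 ≠ Sum.inr 5 ∧ q.2 ≠ Sum.inr 6 ∧ q.2 ≠ Sum.inr 7)) :=
    snd'.finComp (fun a : Sym => decide (a ≠ Sum.inr 5 ∧ a ≠ Sum.inr 6 ∧ a ≠ Sum.inr 7))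
  exact PolyF.id.filter (p := fun _ (a : Sym) =>
    decide (a ≠ Sum.inr 5 ∧ a ≠ Sum.inr 6 ∧ a ≠ Sum.inr 7)) h1

theorem tm2_red : Nonempty (TM2ComputableInPolyTime Sent.encode Inst.encode red) := by
  refine (polyF_wordI (polyF_cnt (Sum.inr 5)) (polyF_cnt (Sum.inr 6)) (polyF_cnt (Sum.inr 7))
    polyF_rdF).tm2 fun S => ?_
  rw [cnt5, cnt6, cnt7, rdF_encode, encode_red]

theorem red_correct (S : Sent) : S.IsTrue ↔ (red S).InGHD := by
  rw [isTrue_iff]
  unfold Inst.InGHD red
  dsimp only
  have h1 : (0 : ℚ) ≤ ((S.l + 1 : ℕ) : ℚ) := Nat.cast_nonneg _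
  have h2 : (((S.l + 1 : ℕ) : ℚ) : ℝ) = (S.l : ℝ) + 1 := by push_cast; ring
  rw [h2]
  exact ⟨fun h => ⟨h1, h⟩, fun h => h.2⟩

end Pool.Agent.Lib.MP_004e29_lc
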