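import Pool.Agent.Lib.MP_004e29_lc.Sets
import Pool.Agent.Lib.MP_004e29_lc.Attain

/-!
# Correctness of the reduction
-/

namespace Pool.Agent.Lib.MP_004e29_lc

open Finset

variable {k m l : ℕ} {F : PolyZ}

/-- The set `A`. -/
noncomputable def setA (k m l : ℕ) : Set (EuclideanSpace ℝ (Fin (nN k m l))) :=
  Sol (nN k m l) (fA k m l)

/-- The set `B`. -/
noncomputable def setB (k m l : ℕ) (F : PolyZ) : Set (EuclideanSpace ℝ (Fin (nN k m l))) :=
  Sol (nN k m l) (fB k m l F)

theorem mem_setA {x : EuclideanSpace ℝ (Fin (nN k m l))} : x ∈ setA k m l ↔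
    PA1 k m l (ext x) ∨ PA2 k m l (ext x) ∨
      ∃ t < nT k m l, PS k m l (ext x) t (rad k m l t) := holds_fA

theorem mem_setB {x : EuclideanSpace ℝ (Fin (nN k m l))} : x ∈ setB k m l F ↔
    PB1 k m l (ext x) F ∨ PA2 k m l (ext x) ∨
      ∃ t < nT k m l, PS k m l (ext x) t (rad k m l t + (l + 1)) := holds_fB

theorem norm_of_PS {x : EuclideanSpace ℝ (Fin (nN k m l))} {t : ℕ} {r : ℝ} (hr : 0 ≤ r)
    (h : PS k m l (ext x) t r) : ‖x‖ = r := by
  have h1 : ‖x‖ ^ 2 = r ^ 2 := by rw [norm_sq_ext, h.2]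
  rwa [sq_eq_sq₀ (norm_nonneg _) hr] at h1

theorem norm_le_of_sum {x : EuclideanSpace ℝ (Fin (nN k m l))} {r : ℝ} (hr : 0 ≤ r)
    (h : ∑ j ∈ range (nN k m l), ext x j ^ 2 ≤ r ^ 2) : ‖x‖ ≤ r := by
  rw [← norm_sq_ext] at h
  exact (sq_le_sq₀ (norm_nonneg _) hr).1 h

/-- The bound for the norms of the small points. -/
noncomputable def cc (k m l : ℕ) : ℝ := k + m + 2 * (l + 1)

theorem cc_pos : 0 < cc k m l := by
  unfold cc
  positivity

theorem rad_eq (t : ℕ) : (rad k m l t : ℝ) = cc k m l + 3 * (l + 1) * (t + 1) := by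
  unfold rad cc
  push_cast
  ring

theorem rad_ge (t : ℕ) : cc k m l + 3 * (l + 1) ≤ rad k m l t := by
  rw [rad_eq]
  have h5 : (0 : ℝ) ≤ l := Nat.cast_nonneg l
  have h6 : (0 : ℝ) ≤ t := Nat.cast_nonneg t
  nlinarith [mul_nonneg h5 h6]

theorem rad_mono {s t : ℕ} (h : s ≤ t) : (rad k m l s : ℝ) ≤ rad k m l t := by
  rw [rad_eq, rad_eq]
  have h5 : (0 : ℝ) ≤ l := Nat.cast_nonneg l
  have h6 : (s : ℝ) ≤ t := by exact_mod_cast h
  nlinarith [mul_nonneg h5 (sub_nonneg.2 h6)]

theorem rad_lt {s t : ℕ} (h : s < t) : (rad k m l s : ℝ) + 3 * (l + 1) ≤ rad k m l t := by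
  rw [rad_eq, rad_eq]
  have h5 : (0 : ℝ) ≤ l := Nat.cast_nonneg l
  have h6 : (s : ℝ) + 1 ≤ t := by exact_mod_cast h
  nlinarith [mul_nonneg h5 (sub_nonneg.2 h6)]

/-- A point of `A` is small or on a sphere. -/
theorem setA_cases {x : EuclideanSpace ℝ (Fin (nN k m l))} (h : x ∈ setA k m l) :
    ‖x‖ ≤ cc k m l ∨ ∃ t < nT k m l, PS k m l (ext x) t (rad k m l t) := by
  rcases mem_setA.1 h with h | h | h
  · exact Or.inl (norm_le_of_sum cc_pos.le h.sum_le)
  · exact Or.inl (norm_le_of_sum cc_pos.le h.sum_le)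
  · exact Or.inr h

theorem norm_setA {x : EuclideanSpace ℝ (Fin (nN k m l))} (h : x ∈ setA k m l) :
    ‖x‖ ≤ rad k m l (k + m + l) := by
  rcases setA_cases h with h | ⟨t, ht, h⟩
  · have h1 := rad_ge (k := k) (m := m) (l := l) (k + m + l)
    have h5 : (0 : ℝ) ≤ l := Nat.cast_nonneg l
    linarith
  · rw [norm_of_PS (Nat.cast_nonneg _) h]
    refine rad_mono ?_
    unfold nT at ht
    omega

theorem norm_setB {x : EuclideanSpace ℝ (Fin (nN k m l))} (h : x ∈ setB k m l F) :
    ‖x‖ ≤ rad k m l (k + m + l) + (l + 1) := by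
  have h1 := rad_ge (k := k) (m := m) (l := l) (k + m + l)
  have h5 : (0 : ℝ) ≤ l := Nat.cast_nonneg l
  rcases mem_setB.1 h with h | h | ⟨t, ht, h⟩
  · have := norm_le_of_sum (cc_pos (k := k) (m := m) (l := l)).le h.sum_le
    linarith
  · have := norm_le_of_sum (cc_pos (k := k) (m := m) (l := l)).le h.sum_le
    linarith
  · rw [norm_of_PS (by positivity) h]
    have : (rad k m l t : ℝ) ≤ rad k m l (k + m + l) := rad_mono (by unfold nT at ht; omega)
    linarith

theorem isCompact_setA : IsCompact (setA k m l) := by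
  refine Metric.isCompact_of_isClosed_isBounded (isClosed_sol _) ?_
  rw [Metric.isBounded_iff_subset_closedBall 0]
  exact ⟨_, fun x hx => by rw [mem_closedBall_zero_iff]; exact norm_setA hx⟩

theorem isCompact_setB : IsCompact (setB k m l F) := by
  refine Metric.isCompact_of_isClosed_isBounded (isClosed_sol _) ?_
  rw [Metric.isBounded_iff_subset_closedBall 0]
  exact ⟨_, fun x hx => by rw [mem_closedBall_zero_iff]; exact norm_setB hx⟩

/-! ### Points on the axes -/

/-- The unit vector of a coordinate. -/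
noncomputable def uv (n j : ℕ) : EuclideanSpace ℝ (Fin n) := mk n fun i => if i = j then 1 else 0

theorem ext_uv {n j i : ℕ} (hi : i < n) : ext (uv n j) i = if i = j then 1 else 0 := ext_mk _ hi

theorem inner_uv {n j : ℕ} (hj : j < n) (x : EuclideanSpace ℝ (Fin n)) :
    inner ℝ (uv n j) x = ext x j := by
  rw [inner_ext, Finset.sum_eq_single j]
  · rw [ext_uv hj, if_pos rfl, one_mul]
  · intro i hi hij
    rw [ext_uv (Finset.mem_range.1 hi), if_neg hij, zero_mul]
  · intro h
    exact absurd (Finset.mem_range.2 hj) h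

theorem norm_uv {n j : ℕ} (hj : j < n) : ‖uv n j‖ = 1 := by
  have h1 : ‖uv n j‖ ^ 2 = 1 := by
    rw [← real_inner_self_eq_norm_sq, inner_uv hj, ext_uv hj, if_pos rfl]
  exact (sq_eq_sq₀ (norm_nonneg _) zero_le_one).1 (by rw [h1, one_pow])

theorem PS_uv {t j : ℕ} (hj : j < nN k m l) (hb : blk (nT k m l) j = t) (r : ℝ) :
    PS k m l (ext (r • uv (nN k m l) j)) t r := by
  constructor
  · intro i hi hbi
    rw [ext_smul, ext_uv hi, if_neg (fun h => hbi (by rw [h, hb])), mul_zero]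
  · rw [← norm_sq_ext, norm_smul, norm_uv hj, mul_one, Real.norm_eq_abs, sq_abs]

theorem blk_lt {j : ℕ} (hj : j < nN k m l) : blk (nT k m l) j < nT k m l := by
  unfold nN at hj
  unfold blk
  split_ifs with h
  · exact h
  · unfold nT at *
    omega

theorem uv_mem_setB {j : ℕ} (hj : j < nN k m l) :
    ((rad k m l (blk (nT k m l) j) : ℝ) + (l + 1)) • uv (nN k m l) j ∈ setB k m l F :=
  mem_setB.2 (Or.inr (Or.inr ⟨_, blk_lt hj, PS_uv hj rfl _⟩))

/-- The equality case of the triangle inequality. -/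
theorem eq_case {n : ℕ} {x e : EuclideanSpace ℝ (Fin n)} {R D : ℝ} (hR : 0 < R) (hD : 0 ≤ D)
    (he : ‖e‖ = 1) (hx : ‖x‖ ≤ R) (h : dist x ((R + D) • e) ≤ D) : x = R • e := by
  have h1 : ‖(R + D) • e‖ = R + D := by
    rw [norm_smul, he, mul_one, Real.norm_of_nonneg (by linarith)]
  have h2 : ‖(R + D) • e‖ - ‖x‖ ≤ D := by
    rw [dist_comm, dist_eq_norm] at h
    exact (norm_sub_norm_le _ _).trans h
  have h3 : ‖x‖ = R := by linarith
  have h4 : dist x ((R + D) • e) ^ 2 = R ^ 2 - 2 * ((R + D) * inner ℝ x e) + (R + D) ^ 2 := by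
    rw [dist_eq_norm, norm_sub_sq_real, h1, h3, real_inner_smul_right]
  have h5 : dist x ((R + D) • e) ^ 2 ≤ D ^ 2 := by
    exact (sq_le_sq₀ dist_nonneg hD).2 h
  have h6 : R ≤ inner ℝ x e := by
    rw [h4] at h5
    have h7 : (R + D) * R ≤ (R + D) * inner ℝ x e := by nlinarith
    exact le_of_mul_le_mul_left h7 (by linarith)
  have h8 : ‖x - R • e‖ ^ 2 ≤ 0 := by
    rw [norm_sub_sq_real, h3, real_inner_smul_right, norm_smul, he, mul_one,
      Real.norm_of_nonneg hR.le]
    nlinarith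
  have h9 : ‖x - R • e‖ = 0 := by
    have := sq_nonneg ‖x - R • e‖
    exact pow_eq_zero_iff (two_ne_zero) |>.1 (le_antisymm h8 this)
  exact sub_eq_zero.1 (norm_eq_zero.1 h9)

/-- The isometry is linear. -/
theorem fix_zero {L : EuclideanSpace ℝ (Fin (nN k m l)) →ₗᵢ[ℝ] EuclideanSpace ℝ (Fin (nN k m l))}
    {c : EuclideanSpace ℝ (Fin (nN k m l))}
    (h2 : ∀ b ∈ setB k m l F, ∃ a ∈ setA k m l, dist (L a + c) b ≤ l + 1) : c = 0 := by
  set T := k + m + l with hT
  have hT' : T < nN k m l := by rw [hT]; unfold nN nT; omega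
  have hbT : blk (nT k m l) T = T := by
    unfold blk nT
    rw [if_pos (by omega)]
  set R : ℝ := ((rad k m l T : ℕ) : ℝ) with hR
  have hRpos : 0 < R := by
    have h1 := rad_ge (k := k) (m := m) (l := l) T
    have h2 := cc_pos (k := k) (m := m) (l := l)
    have h5 : (0 : ℝ) ≤ l := Nat.cast_nonneg l
    linarith
  have h5 : (0 : ℝ) ≤ l := Nat.cast_nonneg l
  set e := uv (nN k m l) T with he
  have hne : ‖e‖ = 1 := norm_uv hT'
  have hb1 : (R + (l + 1)) • e ∈ setB k m l F :=
    mem_setB.2 (Or.inr (Or.inr ⟨T, by rw [hT]; unfold nT; omega, PS_uv hT' hbT _⟩))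
  have hb2 : (-(R + (l + 1))) • e ∈ setB k m l F := by
    refine mem_setB.2 (Or.inr (Or.inr ⟨T, by rw [hT]; unfold nT; omega, ?_⟩))
    have := PS_uv hT' hbT (-(R + (l + 1)))
    refine ⟨this.1, ?_⟩
    rw [this.2, neg_sq]
  obtain ⟨a, ha, hda⟩ := h2 _ hb1
  obtain ⟨a', ha', hda'⟩ := h2 _ hb2
  have hna : ‖L a‖ ≤ R := by rw [L.norm_map]; exact norm_setA ha
  have hna' : ‖L a'‖ ≤ R := by rw [L.norm_map]; exact norm_setA ha'
  -- inner products with `e`
  set p := L a + c - (R + (l + 1)) • e with hp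
  set q := L a' + c - (-(R + (l + 1))) • e with hq
  have hp1 : ‖p‖ ≤ l + 1 := by rw [hp, ← dist_eq_norm]; exact hda
  have hq1 : ‖q‖ ≤ l + 1 := by rw [hq, ← dist_eq_norm]; exact hda'
  have hee : inner ℝ e e = (1 : ℝ) := by rw [real_inner_self_eq_norm_sq, hne]; norm_num
  have bd : ∀ v : EuclideanSpace ℝ (Fin (nN k m l)), |inner ℝ v e| ≤ ‖v‖ := by
    intro v
    have := abs_real_inner_le_norm v e
    rwa [hne, mul_one] at this
  have e1 : inner ℝ p e = inner ℝ (L a) e + inner ℝ c e - (R + (l + 1)) := by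
    rw [hp, inner_sub_left, inner_add_left, real_inner_smul_left, hee, mul_one]
  have e2 : inner ℝ q e = inner ℝ (L a') e + inner ℝ c e + (R + (l + 1)) := by
    rw [hq, inner_sub_left, inner_add_left, real_inner_smul_left, hee]
    ring
  have b1 := abs_le.1 ((bd p).trans hp1)
  have b2 := abs_le.1 ((bd q).trans hq1)
  have b3 := abs_le.1 ((bd (L a)).trans hna)
  have b4 := abs_le.1 ((bd (L a')).trans hna')
  have hLa : inner ℝ (L a) e = R := by linarith [b1.1, b2.2, b3.2, b4.1]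
  have hpe : inner ℝ p e = -((l : ℝ) + 1) := by linarith [b1.1, b2.2, b3.2, b4.1]
  have hLa2 : L a = R • e := by
    have h8 : ‖L a - R • e‖ ^ 2 ≤ 0 := by
      rw [norm_sub_sq_real, real_inner_smul_right, norm_smul, hne, mul_one,
        Real.norm_of_nonneg hRpos.le, hLa]
      have := (sq_le_sq₀ (norm_nonneg _) hRpos.le).2 hna
      nlinarith
    have h9 : ‖L a - R • e‖ = 0 :=
      pow_eq_zero_iff (two_ne_zero) |>.1 (le_antisymm h8 (sq_nonneg _))
    exact sub_eq_zero.1 (norm_eq_zero.1 h9)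
  have hp2 : p = (-((l : ℝ) + 1)) • e := by
    have h8 : ‖p - (-((l : ℝ) + 1)) • e‖ ^ 2 ≤ 0 := by
      rw [norm_sub_sq_real, real_inner_smul_right, norm_smul, hne, mul_one, Real.norm_eq_abs,
        sq_abs, hpe]
      have := (sq_le_sq₀ (norm_nonneg _) (by linarith)).2 hp1
      nlinarith
    have h9 : ‖p - (-((l : ℝ) + 1)) • e‖ = 0 :=
      pow_eq_zero_iff (two_ne_zero) |>.1 (le_antisymm h8 (sq_nonneg _))
    exact sub_eq_zero.1 (norm_eq_zero.1 h9)
  have hc : c = p + (R + (l + 1)) • e - L a := by rw [hp]; abel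
  rw [hc, hp2, hLa2]
  module

/-- For every coordinate there is a point of the sphere of the block which is mapped to the
axis. -/
theorem exists_axis
    {L : EuclideanSpace ℝ (Fin (nN k m l)) →ₗᵢ[ℝ] EuclideanSpace ℝ (Fin (nN k m l))}
    (h2 : ∀ b ∈ setB k m l F, ∃ a ∈ setA k m l, dist (L a) b ≤ l + 1) {j : ℕ}
    (hj : j < nN k m l) : ∃ a : EuclideanSpace ℝ (Fin (nN k m l)),
      PS k m l (ext a) (blk (nT k m l) j) (rad k m l (blk (nT k m l) j)) ∧
        L a = (rad k m l (blk (nT k m l) j) : ℝ) • uv (nN k m l) j := by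
  set t := blk (nT k m l) j with ht
  have h5 : (0 : ℝ) ≤ l := Nat.cast_nonneg l
  have hc := cc_pos (k := k) (m := m) (l := l)
  have hrt := rad_ge (k := k) (m := m) (l := l) t
  obtain ⟨a, ha, hda⟩ := h2 _ (uv_mem_setB (F := F) hj)
  rw [← ht] at hda
  have hn1 : ‖((rad k m l t : ℝ) + (l + 1)) • uv (nN k m l) j‖ = rad k m l t + (l + 1) := by
    rw [norm_smul, norm_uv hj, mul_one, Real.norm_of_nonneg (by positivity)]
  have hlo : (rad k m l t : ℝ) ≤ ‖a‖ := by
    have := norm_sub_norm_le (((rad k m l t : ℝ) + (l + 1)) • uv (nN k m l) j) (L a)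
    rw [← dist_eq_norm, dist_comm, hn1, L.norm_map] at this
    linarith
  have hhi : ‖a‖ ≤ rad k m l t + 2 * (l + 1) := by
    have := norm_sub_norm_le (L a) (((rad k m l t : ℝ) + (l + 1)) • uv (nN k m l) j)
    rw [← dist_eq_norm, hn1, L.norm_map] at this
    linarith
  rcases setA_cases ha with h | ⟨s, hs, h⟩
  · linarith
  · have hs2 : ‖a‖ = rad k m l s := norm_of_PS (Nat.cast_nonneg _) h
    have hst : s = t := by
      rcases lt_trichotomy s t with h' | h' | h'
      · have := rad_lt (k := k) (m := m) (l := l) h'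
        linarith
      · exact h'
      · have := rad_lt (k := k) (m := m) (l := l) h'
        linarith
    rw [hst] at h hs2
    refine ⟨a, h, eq_case (by linarith) (by linarith) (norm_uv hj) ?_ hda⟩
    rw [L.norm_map, hs2]

/-- The coordinates of an image. -/
theorem ext_map
    {L : EuclideanSpace ℝ (Fin (nN k m l)) →ₗᵢ[ℝ] EuclideanSpace ℝ (Fin (nN k m l))}
    {j : ℕ} (hj : j < nN k m l) {a : EuclideanSpace ℝ (Fin (nN k m l))} {R : ℝ} (hR : 0 < R)
    (ha : L a = R • uv (nN k m l) j) (v : EuclideanSpace ℝ (Fin (nN k m l))) :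
    ext (L v) j = (∑ i ∈ range (nN k m l), ext a i * ext v i) / R := by
  rw [← inner_uv hj, ← inner_ext, ← L.inner_map_map a v, ha, real_inner_smul_left]
  field_simp

theorem blk_eq_of_lt {j : ℕ} (hj : j < nT k m l) : blk (nT k m l) j = j := by
  unfold blk
  rw [if_pos hj]

theorem rad_pos (t : ℕ) : (0 : ℝ) < rad k m l t := by
  have h1 := rad_ge (k := k) (m := m) (l := l) t
  have h2 := cc_pos (k := k) (m := m) (l := l)
  have h5 : (0 : ℝ) ≤ l := Nat.cast_nonneg l
  linarith

/-- On a line, the isometry is a sign. -/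
theorem sign_line
    {L : EuclideanSpace ℝ (Fin (nN k m l)) →ₗᵢ[ℝ] EuclideanSpace ℝ (Fin (nN k m l))}
    (h2 : ∀ b ∈ setB k m l F, ∃ a ∈ setA k m l, dist (L a) b ≤ l + 1) {j : ℕ}
    (hj1 : k ≤ j) (hj2 : j < nT k m l) :
    ∃ s : ℝ, s ^ 2 = 1 ∧ ∀ v, ext (L v) j = s * ext v j := by
  have hj : j < nN k m l := by unfold nN; omega
  obtain ⟨a, ha, hLa⟩ := exists_axis h2 hj
  rw [blk_eq_of_lt hj2] at ha hLa
  have hR := rad_pos (k := k) (m := m) (l := l) j
  have hsupp : ∀ i < nN k m l, i ≠ j → ext a i = 0 := by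
    intro i hi hij
    refine ha.1 i hi ?_
    unfold blk
    split_ifs with h
    · exact hij
    · unfold nN at hi
      omega
  have hsum : ∀ f : ℕ → ℝ, ∑ i ∈ range (nN k m l), ext a i * f i = ext a j * f j := by
    intro f
    refine Finset.sum_eq_single j (fun i hi hij => ?_) (fun h => absurd (mem_range.2 hj) h)
    rw [hsupp i (mem_range.1 hi) hij, zero_mul]
  refine ⟨ext a j / rad k m l j, ?_, fun v => ?_⟩
  · have h3 := ha.2
    have h4 : ∑ i ∈ range (nN k m l), ext a i ^ 2 = ext a j * ext a j := by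
      rw [← hsum]
      exact Finset.sum_congr rfl fun i _ => sq _
    rw [h4] at h3
    rw [div_pow, sq (ext a j), h3]
    exact div_self (by positivity)
  · rw [ext_map hj hR hLa, hsum]
    ring

/-- In a plane, the first coordinate of the image of the first axis. -/
theorem first_plane
    {L : EuclideanSpace ℝ (Fin (nN k m l)) →ₗᵢ[ℝ] EuclideanSpace ℝ (Fin (nN k m l))}
    (h2 : ∀ b ∈ setB k m l F, ∃ a ∈ setA k m l, dist (L a) b ≤ l + 1) {j : ℕ} (hj1 : j < k) :
    ∃ x : ℝ, |x| ≤ 1 ∧ ∀ v, ext v j = 1 → ext v (nT k m l + j) = 0 → ext (L v) j = x := by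
  have hj2 : j < nT k m l := by unfold nT; omega
  have hj : j < nN k m l := by unfold nN; omega
  obtain ⟨a, ha, hLa⟩ := exists_axis h2 hj
  rw [blk_eq_of_lt hj2] at ha hLa
  have hR := rad_pos (k := k) (m := m) (l := l) j
  refine ⟨ext a j / rad k m l j, ?_, fun v h3 h4 => ?_⟩
  · rw [abs_div, Nat.abs_cast, div_le_one hR]
    have h3 : ext a j ^ 2 ≤ (rad k m l j : ℝ) ^ 2 := by
      rw [← ha.2]
      exact Finset.single_le_sum (f := fun i => ext a i ^ 2) (fun i _ => sq_nonneg _)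
        (mem_range.2 hj)
    exact abs_le_of_sq_le_sq h3 hR.le
  · rw [ext_map hj hR hLa]
    congr 1
    rw [Finset.sum_eq_single j, h3, mul_one]
    · intro i hi hij
      rcases eq_or_ne (blk (nT k m l) i) j with h5 | h5
      · have : i = nT k m l + j := by
          unfold blk at h5
          split_ifs at h5
          · exact absurd h5 hij
          · omega
        rw [this, h4, mul_zero]
      · rw [ha.1 i (mem_range.1 hi) h5, zero_mul]
    · exact fun h => absurd (mem_range.2 hj) h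

/-- The first direction. -/
theorem isTrue_of_dGH {S : Sent}
    (h : dGH (setA S.k S.m S.l) (setB S.k S.m S.l S.F) ≤ ENNReal.ofReal (S.l + 1)) :
    S.IsTrue := by
  obtain ⟨k, m, l, F, wf⟩ := S
  simp only at h wf
  have h5 : (0 : ℝ) ≤ l := Nat.cast_nonneg l
  have hne : (setA k m l).Nonempty := by
    refine ⟨(rad k m l (k + m + l) : ℝ) • uv (nN k m l) (k + m + l),
      mem_setA.2 (Or.inr (Or.inr ⟨k + m + l, by unfold nT; omega, PS_uv ?_ ?_ _⟩))⟩
    · unfold nN nT; omega
    · exact blk_eq_of_lt (by unfold nT; omega)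
  obtain ⟨f, hf, h1, h2⟩ := exists_isometry isCompact_setA isCompact_setB hne (by linarith) h
  obtain ⟨L, c, hL⟩ := isometry_form hf
  simp only [hL] at h1 h2
  have hc := fix_zero h2
  subst hc
  simp only [add_zero] at h1 h2
  -- the values of the first block
  have hx : ∀ i : Fin k, ∃ x : ℝ, |x| ≤ 1 ∧ ∀ v, ext v i = 1 → ext v (nT k m l + i) = 0 →
      ext (L v) i = x := fun i => first_plane h2 i.2
  choose x hx1 hx2 using hx
  -- the signs
  have hs : ∀ j : Fin (m + (l + 1)), ∃ s : ℝ, s ^ 2 = 1 ∧ ∀ v, ext (L v) (k + j) = s * ext v (k + j) :=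
    fun j => sign_line h2 (by omega) (by have := j.2; unfold nT; omega)
  choose s hs1 hs2 using hs
  refine ⟨x, hx1, fun y hy => ?_⟩
  -- the point of `A`
  set u : ℕ → ℝ := fun i => if i < k then 1 else
    if h : i - k < m then s ⟨i - k, by omega⟩ * y ⟨i - k, h⟩ else 0 with hu
  set a := mk (nN k m l) u with ha
  have hext : ∀ i < nN k m l, ext a i = u i := fun i hi => ext_mk _ hi
  have hN : nN k m l = k + m + l + 1 + k := rfl
  have hT : nT k m l = k + m + l + 1 := rfl
  have ua1 : ∀ i < k, ext a i = 1 := by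
    intro i hi
    rw [hext i (by omega), hu]
    simp only
    rw [if_pos hi]
  have ua2 : ∀ i < k, ext a (nT k m l + i) = 0 := by
    intro i hi
    rw [hext _ (by omega), hu]
    simp only
    rw [if_neg (by omega), dif_neg (by omega)]
  have ua3 : ∀ j (hj : j < m), ext a (k + j) = s ⟨j, by omega⟩ * y ⟨j, hj⟩ := by
    intro j hj
    rw [hext _ (by omega), hu]
    simp only
    rw [if_neg (by omega), dif_pos (by omega)]
    have e1 : k + j - k = j := by omega
    simp only [e1]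
  have ua4 : ∀ j < l + 1, ext a (k + m + j) = 0 := by
    intro j hj
    rw [hext _ (by omega), hu]
    simp only
    rw [if_neg (by omega), dif_neg (by omega)]
  have hA1 : PA1 k m l (ext a) := by
    refine ⟨ua1, ua2, fun j hj => ?_, ua4⟩
    rw [ua3 j hj, mul_pow, hs1, one_mul]
    exact (sq_le_one_iff_abs_le_one _).2 (hy _)
  have haA : a ∈ setA k m l := mem_setA.2 (Or.inl hA1)
  obtain ⟨b, hb, hdb⟩ := h1 a haA
  -- the coordinates of the image
  have la1 : ∀ i (hi : i < k), ext (L a) i = x ⟨i, hi⟩ := fun i hi =>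
    hx2 ⟨i, hi⟩ a (ua1 i hi) (ua2 i hi)
  have la3 : ∀ j (hj : j < m), ext (L a) (k + j) = y ⟨j, hj⟩ := by
    intro j hj
    have e1 := hs2 ⟨j, by omega⟩ a
    simp only at e1
    rw [e1, ua3 j hj, ← mul_assoc, ← sq, hs1, one_mul]
  have la4 : ∀ j < l + 1, ext (L a) (k + m + j) = 0 := by
    intro j hj
    have e1 := hs2 ⟨m + j, by omega⟩ a
    simp only at e1
    rw [← add_assoc] at e1
    rw [e1, ua4 j hj, mul_zero]
  have hd2 : dist (L a) b ^ 2 ≤ ((l : ℝ) + 1) ^ 2 :=
    (sq_le_sq₀ dist_nonneg (by linarith)).2 hdb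
  rw [dist_sq_ext, sum_split (fun j => (ext (L a) j - ext b j) ^ 2)] at hd2
  have hw : ∑ j ∈ range (l + 1), (ext (L a) (k + m + j) - ext b (k + m + j)) ^ 2 =
      ∑ j ∈ range (l + 1), ext b (k + m + j) ^ 2 := by
    refine Finset.sum_congr rfl fun j hj => ?_
    rw [la4 j (mem_range.1 hj)]
    ring
  have n1 : 0 ≤ ∑ i ∈ range k, ((ext (L a) i - ext b i) ^ 2 +
      (ext (L a) (nT k m l + i) - ext b (nT k m l + i)) ^ 2) :=
    Finset.sum_nonneg fun i _ => by positivity
  have n2 : 0 ≤ ∑ j ∈ range m, (ext (L a) (k + j) - ext b (k + j)) ^ 2 :=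
    Finset.sum_nonneg fun i _ => by positivity
  rw [hw] at hd2
  rcases mem_setB.1 hb with hb | hb | ⟨t, ht, hb⟩
  · -- the good case
    rw [hb.2.2.1] at hd2
    have z1 : ∑ i ∈ range k, ((ext (L a) i - ext b i) ^ 2 +
      (ext (L a) (nT k m l + i) - ext b (nT k m l + i)) ^ 2) = 0 := by linarith
    have z2 : ∑ j ∈ range m, (ext (L a) (k + j) - ext b (k + j)) ^ 2 = 0 := by linarith
    rw [Finset.sum_eq_zero_iff_of_nonneg (fun i _ => by positivity)] at z1 z2
    have b1 : ∀ i (hi : i < k), ext b i = x ⟨i, hi⟩ := by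
      intro i hi
      have e1 := z1 i (mem_range.2 hi)
      rw [← la1 i hi]
      have e2 : (ext (L a) i - ext b i) ^ 2 = 0 := by
        have := sq_nonneg (ext (L a) i - ext b i)
        have := sq_nonneg (ext (L a) (nT k m l + i) - ext b (nT k m l + i))
        linarith
      have e3 := pow_eq_zero_iff (two_ne_zero) |>.1 e2
      linarith
    have b2 : ∀ j (hj : j < m), ext b (k + j) = y ⟨j, hj⟩ := by
      intro j hj
      have e1 := z2 j (mem_range.2 hj)
      rw [← la3 j hj]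
      have e3 := pow_eq_zero_iff (two_ne_zero) |>.1 e1
      linarith
    refine ⟨fun j => ext b (k + m + j), fun j => ?_, ?_⟩
    · exact (sq_le_one_iff_abs_le_one _).1 (hb.2.1 j j.2)
    · rw [← hb.2.2.2]
      refine evalP_congr fun q hq i hi => ?_
      have hi' := wf q hq i hi
      unfold join
      dsimp only
      split_ifs with c1 c2 c3
      · exact (b1 i c1).symm
      · rw [← b2 _ c2]
        congr 1
        omega
      · congr 1
        omega
      · omega
  · exfalso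
    rw [hb.2] at hd2
    nlinarith
  · exfalso
    have e1 : ‖b‖ = rad k m l t + (l + 1) := norm_of_PS (by positivity) hb
    have e2 : ‖L a‖ ≤ cc k m l := by
      rw [L.norm_map]
      exact norm_le_of_sum cc_pos.le hA1.sum_le
    have e3 := norm_sub_norm_le b (L a)
    rw [← dist_eq_norm, dist_comm, e1] at e3
    have e4 := rad_ge (k := k) (m := m) (l := l) t
    linarith

end Pool.Agent.Lib.MP_004e29_lc
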