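import Pool.Agent.Lib.MP_004e29_lc.Formula

/-!
# The two semialgebraic sets
-/

namespace Pool.Agent.Lib.MP_004e29_lc

/-- The number of blocks of coordinates: the planes `{i, T + i}` (`i < k`) and the lines `{i}`
(`k ≤ i < T`). -/
def nT (k m l : ℕ) : ℕ := k + m + l + 1

/-- The dimension. -/
def nN (k m l : ℕ) : ℕ := nT k m l + k

/-- The block of a coordinate. -/
def blk (T j : ℕ) : ℕ := if j < T then j else j - T

/-- The radius of the sphere of a block. -/
def rad (k m l t : ℕ) : ℕ := k + m + 2 * (l + 1) + 3 * (l + 1) * (t + 1)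

/-! ### Clauses -/

/-- The clause of `A1`. -/
def cA1 (k m l : ℕ) : List (Bool × PolyZ) :=
  (List.range k).map (fun i => (true, linP i 1)) ++
    ((List.range k).map (fun i => (true, linP (nT k m l + i) 0)) ++
      ((List.range m).map (fun j => (false, boxP (k + j))) ++
        (List.range (l + 1)).map (fun j => (true, linP (k + m + j) 0))))

/-- The atoms of the circles and of the cube. -/
def cC (k m l : ℕ) : List (Bool × PolyZ) :=
  (List.range k).map (fun i => (true, circP i (nT k m l + i))) ++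
    (List.range m).map (fun j => (false, boxP (k + j)))

/-- The clause of `A2`. -/
def cA2 (k m l : ℕ) : List (Bool × PolyZ) :=
  cC k m l ++ [(true, sqP (k + m) (l + 1) ((2 * (l + 1) : ℤ) ^ 2))]

/-- The clause of `B1`, without the polynomial. -/
def cB1 (k m l : ℕ) : List (Bool × PolyZ) :=
  cC k m l ++ ((List.range l).map (fun j => (false, boxP (k + m + j))) ++
    [(true, sqP (k + m) (l + 1) ((l + 1 : ℤ) ^ 2))])

/-- The clause of a sphere. -/
def cS (k m l t : ℕ) (r : ℤ) : List (Bool × PolyZ) :=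
  ((List.range (nN k m l)).filter (fun j => !decide (blk (nT k m l) j = t))).map
    (fun j => (true, linP j 0)) ++ [(true, sqP 0 (nN k m l) (r ^ 2))]

/-- The clauses of the spheres, the radii being increased by `e`. -/
def cSs (k m l e : ℕ) : List (List (Bool × PolyZ)) :=
  (List.range (nT k m l)).map fun t => cS k m l t (rad k m l t + e)

/-- The formula of `A`. -/
def fA (k m l : ℕ) : Form := dnf (cA1 k m l :: cA2 k m l :: cSs k m l 0)

/-- The formula of `B`. -/
def fB (k m l : ℕ) (F : PolyZ) : Form :=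
  dnf ((cB1 k m l ++ [(true, F)]) :: cA2 k m l :: cSs k m l (l + 1))

/-! ### Predicates -/

section

variable (k m l : ℕ) (u : ℕ → ℝ)

/-- The set `A1`. -/
def PA1 : Prop := (∀ i < k, u i = 1) ∧ (∀ i < k, u (nT k m l + i) = 0) ∧
  (∀ j < m, u (k + j) ^ 2 ≤ 1) ∧ ∀ j < l + 1, u (k + m + j) = 0

/-- Circles and cube. -/
def PC : Prop := (∀ i < k, u i ^ 2 + u (nT k m l + i) ^ 2 = 1) ∧ ∀ j < m, u (k + j) ^ 2 ≤ 1

/-- The set `A2`. -/
def PA2 : Prop := PC k m l u ∧ ∑ j ∈ Finset.range (l + 1), u (k + m + j) ^ 2 = (2 * (l + 1)) ^ 2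

/-- The set `B1`. -/
def PB1 (F : PolyZ) : Prop := PC k m l u ∧ (∀ j < l, u (k + m + j) ^ 2 ≤ 1) ∧
  ∑ j ∈ Finset.range (l + 1), u (k + m + j) ^ 2 = (l + 1) ^ 2 ∧ evalP u F = 0

/-- The sphere of radius `r` of a block. -/
def PS (t : ℕ) (r : ℝ) : Prop := (∀ j < nN k m l, blk (nT k m l) j ≠ t → u j = 0) ∧
  ∑ j ∈ Finset.range (nN k m l), u j ^ 2 = r ^ 2

end

section

variable {k m l : ℕ} {u : ℕ → ℝ}

theorem all_cA1 : (∀ a ∈ cA1 k m l, (atom a).holds u) ↔ PA1 k m l u := by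
  unfold cA1 PA1
  simp only [List.forall_mem_append, List.forall_mem_map, List.mem_range, holds_eq0, holds_ge0,
    evalP_linP, evalP_boxP, sub_nonneg, Int.cast_one, Int.cast_zero, sub_zero, sub_eq_zero]

theorem all_cC : (∀ a ∈ cC k m l, (atom a).holds u) ↔ PC k m l u := by
  unfold cC PC
  simp only [List.forall_mem_append, List.forall_mem_map, List.mem_range, holds_eq0, holds_ge0,
    evalP_circP, evalP_boxP, sub_nonneg, sub_eq_zero]

theorem all_cA2 : (∀ a ∈ cA2 k m l, (atom a).holds u) ↔ PA2 k m l u := by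
  unfold cA2 PA2
  simp only [List.forall_mem_append, all_cC, List.forall_mem_singleton, holds_eq0, evalP_sqP,
    sub_eq_zero]
  push_cast
  rfl

theorem all_cB1 {F : PolyZ} : (∀ a ∈ cB1 k m l ++ [(true, F)], (atom a).holds u) ↔
    PB1 k m l u F := by
  unfold cB1 PB1
  simp only [List.forall_mem_append, all_cC, List.forall_mem_map, List.mem_range, holds_ge0,
    List.forall_mem_singleton, holds_eq0, evalP_sqP, evalP_boxP, sub_nonneg, sub_eq_zero, and_assoc]
  push_cast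
  rfl

theorem all_cS {t : ℕ} {r : ℤ} : (∀ a ∈ cS k m l t r, (atom a).holds u) ↔
    PS k m l u t r := by
  unfold cS PS
  simp only [List.forall_mem_append, List.forall_mem_map, List.mem_filter, List.mem_range,
    List.forall_mem_singleton, holds_eq0, evalP_linP, evalP_sqP, sub_eq_zero, zero_add,
    Int.cast_zero, and_imp, Bool.not_eq_true', decide_eq_false_iff_not]
  push_cast
  rfl

theorem holds_fA : (fA k m l).holds u ↔ PA1 k m l u ∨ PA2 k m l u ∨
    ∃ t < nT k m l, PS k m l u t (rad k m l t) := by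
  unfold fA cSs
  rw [holds_dnf]
  simp only [List.exists_mem_cons_iff, all_cA1, all_cA2]
  refine or_congr Iff.rfl (or_congr Iff.rfl ?_)
  simp only [List.mem_map, List.mem_range]
  constructor
  · rintro ⟨c, ⟨t, ht, rfl⟩, h⟩
    rw [all_cS] at h
    push_cast at h
    rw [add_zero] at h
    exact ⟨t, ht, h⟩
  · rintro ⟨t, ht, h⟩
    refine ⟨_, ⟨t, ht, rfl⟩, ?_⟩
    rw [all_cS]
    push_cast
    rw [add_zero]
    exact h

theorem holds_fB {F : PolyZ} : (fB k m l F).holds u ↔ PB1 k m l u F ∨ PA2 k m l u ∨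
    ∃ t < nT k m l, PS k m l u t (rad k m l t + (l + 1)) := by
  unfold fB cSs
  rw [holds_dnf]
  simp only [List.exists_mem_cons_iff, all_cB1, all_cA2]
  refine or_congr Iff.rfl (or_congr Iff.rfl ?_)
  simp only [List.mem_map, List.mem_range]
  constructor
  · rintro ⟨c, ⟨t, ht, rfl⟩, h⟩
    rw [all_cS] at h
    push_cast at h
    exact ⟨t, ht, h⟩
  · rintro ⟨t, ht, h⟩
    refine ⟨_, ⟨t, ht, rfl⟩, ?_⟩
    rw [all_cS]
    push_cast
    exact h

/-- Splitting a sum over the coordinates. -/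
theorem sum_split (f : ℕ → ℝ) : ∑ j ∈ Finset.range (nN k m l), f j =
    ∑ i ∈ Finset.range k, (f i + f (nT k m l + i)) + ∑ j ∈ Finset.range m, f (k + j) +
      ∑ j ∈ Finset.range (l + 1), f (k + m + j) := by
  have h1 : nN k m l = k + m + (l + 1) + k := by unfold nN nT; ring
  have h2 : nT k m l = k + m + (l + 1) := by unfold nT; ring
  rw [h1, Finset.sum_range_add, Finset.sum_range_add, Finset.sum_range_add, Finset.sum_add_distrib,
    h2]
  ring

theorem PC.sum_le (h : PC k m l u) : ∑ i ∈ Finset.range k, (u i ^ 2 + u (nT k m l + i) ^ 2) +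
    ∑ j ∈ Finset.range m, u (k + j) ^ 2 ≤ k + m := by
  have h1 : ∑ i ∈ Finset.range k, (u i ^ 2 + u (nT k m l + i) ^ 2) = k := by
    rw [Finset.sum_congr rfl fun i hi => h.1 i (Finset.mem_range.1 hi)]
    simp
  have h2 : ∑ j ∈ Finset.range m, u (k + j) ^ 2 ≤ m := by
    refine (Finset.sum_le_sum fun j hj => h.2 j (Finset.mem_range.1 hj)).trans ?_
    simp
  linarith

theorem PA1.PC (h : PA1 k m l u) : PC k m l u := by
  refine ⟨fun i hi => ?_, h.2.2.1⟩
  rw [h.1 i hi, h.2.1 i hi]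
  norm_num

/-- The squares of the norms. -/
theorem PA1.sum_le (h : PA1 k m l u) :
    ∑ j ∈ Finset.range (nN k m l), u j ^ 2 ≤ (k + m + 2 * (l + 1)) ^ 2 := by
  rw [sum_split (fun j => u j ^ 2)]
  have h1 := h.PC.sum_le
  have h2 : ∑ j ∈ Finset.range (l + 1), u (k + m + j) ^ 2 = 0 :=
    Finset.sum_eq_zero fun j hj => by rw [h.2.2.2 j (Finset.mem_range.1 hj)]; norm_num
  have h3 : (0 : ℝ) ≤ k := Nat.cast_nonneg k
  have h4 : (0 : ℝ) ≤ m := Nat.cast_nonneg m
  have h5 : (0 : ℝ) ≤ l := Nat.cast_nonneg l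
  rw [h2]
  nlinarith

theorem PA2.sum_le (h : PA2 k m l u) :
    ∑ j ∈ Finset.range (nN k m l), u j ^ 2 ≤ (k + m + 2 * (l + 1)) ^ 2 := by
  rw [sum_split (fun j => u j ^ 2)]
  have h1 := h.1.sum_le
  have h2 := h.2
  have h3 : (0 : ℝ) ≤ k := Nat.cast_nonneg k
  have h4 : (0 : ℝ) ≤ m := Nat.cast_nonneg m
  have h5 : (0 : ℝ) ≤ l := Nat.cast_nonneg l
  rw [h2]
  nlinarith

theorem PB1.sum_le {F : PolyZ} (h : PB1 k m l u F) :
    ∑ j ∈ Finset.range (nN k m l), u j ^ 2 ≤ (k + m + 2 * (l + 1)) ^ 2 := by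
  rw [sum_split (fun j => u j ^ 2)]
  have h1 := h.1.sum_le
  have h2 := h.2.2.1
  have h3 : (0 : ℝ) ≤ k := Nat.cast_nonneg k
  have h4 : (0 : ℝ) ≤ m := Nat.cast_nonneg m
  have h5 : (0 : ℝ) ≤ l := Nat.cast_nonneg l
  rw [h2]
  nlinarith

/-! ### Norms -/

theorem norm_sq_ext {n : ℕ} (x : EuclideanSpace ℝ (Fin n)) :
    ‖x‖ ^ 2 = ∑ j ∈ Finset.range n, ext x j ^ 2 := by
  rw [EuclideanSpace.norm_sq_eq, ← Fin.sum_univ_eq_sum_range]
  refine Finset.sum_congr rfl fun i _ => ?_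
  rw [Real.norm_eq_abs, sq_abs, ext, dif_pos i.2]

theorem inner_ext {n : ℕ} (x y : EuclideanSpace ℝ (Fin n)) :
    inner ℝ x y = ∑ j ∈ Finset.range n, ext x j * ext y j := by
  rw [PiLp.inner_apply, ← Fin.sum_univ_eq_sum_range (fun j => ext x j * ext y j)]
  refine Finset.sum_congr rfl fun i _ => ?_
  rw [ext, dif_pos i.2, ext, dif_pos i.2]
  simp [mul_comm]

theorem ext_sub {n : ℕ} (x y : EuclideanSpace ℝ (Fin n)) (i : ℕ) :
    ext (x - y) i = ext x i - ext y i := by
  unfold ext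
  split_ifs <;> simp

theorem ext_add {n : ℕ} (x y : EuclideanSpace ℝ (Fin n)) (i : ℕ) :
    ext (x + y) i = ext x i + ext y i := by
  unfold ext
  split_ifs <;> simp

theorem ext_smul {n : ℕ} (c : ℝ) (x : EuclideanSpace ℝ (Fin n)) (i : ℕ) :
    ext (c • x) i = c * ext x i := by
  unfold ext
  split_ifs <;> simp

theorem ext_of_le {n : ℕ} (x : EuclideanSpace ℝ (Fin n)) {i : ℕ} (h : n ≤ i) : ext x i = 0 := by
  rw [ext, dif_neg (by omega)]

theorem ext_inj {n : ℕ} {x y : EuclideanSpace ℝ (Fin n)} (h : ∀ i < n, ext x i = ext y i) :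
    x = y := by
  ext i
  have := h i i.2
  rwa [ext, dif_pos i.2, ext, dif_pos i.2] at this

/-- The point with given coordinates. -/
noncomputable def mk (n : ℕ) (u : ℕ → ℝ) : EuclideanSpace ℝ (Fin n) :=
  WithLp.toLp 2 fun i : Fin n => u i

theorem ext_mk {n : ℕ} (u : ℕ → ℝ) {i : ℕ} (h : i < n) : ext (mk n u) i = u i := by
  rw [ext, dif_pos h]
  rfl

theorem dist_sq_ext {n : ℕ} (x y : EuclideanSpace ℝ (Fin n)) :
    dist x y ^ 2 = ∑ j ∈ Finset.range n, (ext x j - ext y j) ^ 2 := by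
  rw [dist_eq_norm, norm_sq_ext]
  exact Finset.sum_congr rfl fun j _ => by rw [ext_sub]

end

end Pool.Agent.Lib.MP_004e29_lc
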